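import Pool.Agent.Lib.MP_751085_ag.ZF.ADefs
import Pool.Agent.Lib.MP_751085_ag.ZC.RDefs

/-! Residues of Brauer classes, with separable closures. -/

namespace Pool.Agent.ZCy.F

open scoped Classical WithZero
open groupCohomology

variable {K Ω : Type} [Field K] [Field Ω]

/-- Residue data: a cocycle that represents `a` and is inflated from `D / I` on `D`. -/
structure RD (v : Vl K) (a : BR K) : Type 1 where
  E : Type
  [fld : Field E]
  [alg : Algebra K E]
  [fin : FiniteDimensional K E]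
  [gal : IsGalois K E]
  w : Vl E
  e : ℚ
  c : (E ≃ₐ[K] E) × (E ≃ₐ[K] E) → Eˣ
  lam : (E ≃ₐ[K] E) → ℚ
  e_pos : 0 < e
  idq : Idq (algebraMap K E) v w e
  coc : IsMulCocycle₂ c
  cls_eq : cls K c = a
  infl : Infl (Dec K w) (Ine K w) c
  ord_eq : ∀ g ∈ Dec K w, ∀ h ∈ Dec K w,
    (ord w (c (g, h) : E) : ℚ) = e * (lam g + lam h - lam (g * h))

attribute [instance] RD.fld RD.alg RD.fin RD.gal

/-- the cocycle has unit values on the decomposition group -/
def RD.Unit {v : Vl K} {a : BR K} (R : RD v a) : Prop :=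
  ∀ g ∈ Dec K R.w, ∀ h ∈ Dec K R.w, R.w (R.c (g, h) : R.E) = 1

/-- the class has a residue -/
def HasRes (v : Vl K) (a : BR K) : Prop := Nonempty (RD v a)

/-- the residue of the class is zero -/
def Unram (v : Vl K) (a : BR K) : Prop := ∃ R : RD v a, R.Unit

/-- the residue of `a` takes the value `q` at the automorphism `γ` -/
def ResAt (v : Vl K) (ρ : v.integer →+* Ω) (a : BR K) (γ : Ω ≃+* Ω) (q : AddCircle (1 : ℚ)) : Prop :=
  ∃ (R : RD v a) (ρ' : R.w.integer →+* Ω) (d : R.E ≃ₐ[K] R.E), IsRed R.w ρ' ∧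
    Cmp (algebraMap K R.E) ρ ρ' id ∧ d ∈ Dec K R.w ∧ Cmp d ρ' ρ' γ ∧ q = (R.lam d : AddCircle (1 : ℚ))

/-- the residue as a function on the automorphisms of `Ω` that fix the residue field -/
noncomputable def dres (v : Vl K) (ρ : v.integer →+* Ω) (a : BR K) (γ : Ω ≃+* Ω) :
    AddCircle (1 : ℚ) := Classical.epsilon (ResAt v ρ a γ)

end Pool.Agent.ZCy.F
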