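import Pool.Agent.Lib.MP_751085_ag.ZF.EDefs
import Pool.Agent.Lib.MP_751085_ag.ZF.RDefs
import Pool.Agent.Lib.MP_751085_ag.ZC.Iface
import Pool.Agent.Lib.MP_796ce4_ag.ZY.PlaceA

/-! The statements about values of Brauer classes that the other blocks use. -/

namespace Pool.Agent.ZCy.F

open scoped Classical IntermediateField

variable {k : Type} [Field k]

/-- The evaluation of the classes of `X.Bw`. -/
structure EvApi (X : Var k) : Prop where
  germ : ∀ (M : Type) [Field M] [Algebra k M] (x : Fin (X.N + 1) → M), X.On x →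
    ∃ (r : ℕ) (γ : X.F →+* Fr (MvPowerSeries (Fin r) M)), X.Germ γ x
  vw : ∀ a ∈ X.Bw, ∀ (M : Type) [Field M] [Algebra k M] (x : Fin (X.N + 1) → M), X.On x →
    ∀ β, X.Vw a x β ↔ X.vl a M x = β
  pt : ∀ a ∈ X.Bw, ∀ (R : Type) [CommRing R] [IsLocalRing R] [Algebra k R]
    (y : Fin (X.N + 1) → R), (∃ i, IsUnit (y i)) → (∀ G ∈ X.I, MvPolynomial.aeval y G = 0) →
      ∃ U : UC R, ∀ (M : Type) [Field M] [Algebra k M] (φ : R →ₐ[k] M),
        X.vl a M (φ ∘ y) = U.val (φ : R →+* M)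
  const : ∀ b : BR k, rs (algebraMap k X.F) b ∈ X.Bw
  val_add : ∀ a ∈ X.Bw, ∀ b ∈ X.Bw, ∀ (M : Type) [Field M] [Algebra k M]
    (x : Fin (X.N + 1) → M), X.On x → X.vl (a + b) M x = X.vl a M x + X.vl b M x
  val_neg : ∀ a ∈ X.Bw, ∀ (M : Type) [Field M] [Algebra k M]
    (x : Fin (X.N + 1) → M), X.On x → X.vl (-a) M x = -X.vl a M x
  val_nsmul : ∀ a ∈ X.Bw, ∀ (m : ℕ) (M : Type) [Field M] [Algebra k M]
    (x : Fin (X.N + 1) → M), X.On x → X.vl (m • a) M x = m • X.vl a M x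
  val_const : ∀ (b : BR k) (M : Type) [Field M] [Algebra k M] (x : Fin (X.N + 1) → M), X.On x →
    X.vl (rs (algebraMap k X.F) b) M x = rs (algebraMap k M) b
  val_smul : ∀ a ∈ X.Bw, ∀ (M : Type) [Field M] [Algebra k M] (x : Fin (X.N + 1) → M) (u : M),
    X.On x → u ≠ 0 → X.vl a M (u • x) = X.vl a M x
  val_map : ∀ a ∈ X.Bw, ∀ (M M' : Type) [Field M] [Algebra k M] [Field M'] [Algebra k M']
    (φ : M →ₐ[k] M') (x : Fin (X.N + 1) → M), X.On x →
      X.vl a M' (φ ∘ x) = rs (φ : M →+* M') (X.vl a M x)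
  val_dom : ∀ a ∈ X.Bw, ∀ (M : Type) [Field M] [Algebra k M] (γ : X.F →+* M)
    (x : Fin (X.N + 1) → M), X.Dom γ x → X.vl a M x = rs γ a
  arcR : ∀ a ∈ X.Bw, ∀ (R M T : Type) [CommRing R] [IsLocalRing R]
    [IsAdicComplete (IsLocalRing.maximalIdeal R) R] [Algebra k R] [Field M] [Algebra k M] [Field T]
    [Algebra k T] (π : R →ₐ[k] M) (s : M →+* R) (φ : R →ₐ[k] T) (y : Fin (X.N + 1) → R),
    (∀ z, π (s z) = z) → (∀ z, π z ≠ 0 → IsUnit z) → π ∘ y ≠ 0 →
    (∀ G ∈ X.I, MvPolynomial.aeval y G = 0) →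
      X.vl a T (φ ∘ y) = rs ((φ : R →+* T).comp s) (X.vl a M (π ∘ y))
  spec : ∀ a ∈ X.Bw, ∀ (M τ : Type) [Field M] [Algebra k M] [Fintype τ]
    (γ : X.F →+* Fr (MvPowerSeries τ M)) (x : Fin (X.N + 1) → M), X.GermT γ x →
      rs γ a = rs (cC τ M) (X.vl a M x)
  arc : ∀ a ∈ X.Bw, ∀ (M : Type) [Field M] [Algebra k M]
    (y : Fin (X.N + 1) → PowerSeries M), (fun i => PowerSeries.constantCoeff (y i)) ≠ 0 →
    (∀ G ∈ X.I, MvPolynomial.aeval y G = 0) →
      X.vl a (Fr (PowerSeries M)) (fun i => algebraMap (PowerSeries M) _ (y i)) =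
        rs ((algebraMap (PowerSeries M) _).comp PowerSeries.C)
          (X.vl a M fun i => PowerSeries.constantCoeff (y i))
  arcT : ∀ a ∈ X.Bw, ∀ (M τ : Type) [Field M] [Algebra k M] [Fintype τ]
    (y : Fin (X.N + 1) → MvPowerSeries τ M), (fun i => MvPowerSeries.constantCoeff (y i)) ≠ 0 →
    (∀ G ∈ X.I, MvPolynomial.aeval y G = 0) →
      X.vl a (Fr (MvPowerSeries τ M)) (fun i => algebraMap (MvPowerSeries τ M) _ (y i)) =
        rs (cC τ M) (X.vl a M fun i => MvPowerSeries.constantCoeff (y i))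
  unram : ∀ a ∈ X.Bw, ∀ (M : Type) [Field M] [Algebra k M] (x : Fin (X.N + 1) → M) (v : Vl M),
    X.On x → Triv (algebraMap k M) v → Unram v (X.vl a M x)

/-- evaluation -/
def EV : Prop := ∀ (k : Type) [Field k] [Infinite k] (X : Var k) (n : ℕ), X.Nice n → 1 ≤ n →
  EvApi X

/-- base change of cycles, and the pairing with constant classes -/
def WBC : Prop := ∀ (k : Type) [Field k] (X : Var k), EvApi X →
  ∀ (K : Type) [Field K] [Algebra k K],
    (∀ p : X.Cyc k, ∃ p' : X.Cyc K, Var.deg p' = Var.deg p ∧ ∀ a ∈ X.Bw,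
      Var.pr p' a = rs (algebraMap k K) (Var.pr p a)) ∧
    (∀ (z : X.Cyc K) (b : BR k), Var.pr z (rs (algebraMap k X.F) b) =
      Var.deg z • rs (algebraMap k K) b) ∧
    ∀ (z : X.Cyc K), ∀ a ∈ X.Bw, ∀ b ∈ X.Bw, Var.pr z (a + b) = Var.pr z a + Var.pr z b

/-- the residue field of a place -/
noncomputable def plF {K E : Type} [Field K] [Field E] [Algebra K E]
    (P : ZeroCyc.Place K E (AlgebraicClosure K)) : IntermediateField K (AlgebraicClosure K) :=
  IntermediateField.adjoin K (Set.range P.ev)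

/-- reciprocity on curves -/
def WR : Prop := ∀ (k : Type) [Field k] (X : Var k), EvApi X → ∀ a ∈ X.Bw,
  ∀ (K E : Type) [Field K] [Field E] [Algebra k K] [Algebra K E] [Algebra k E]
    [IsScalarTower k K E] (t : E), Transcendental K t → FiniteDimensional K⟮t⟯ E →
    Algebra.IsSeparable K⟮t⟯ E → ∀ (g : Fin (X.N + 1) → E) (f : E)
    (s : Finset (ZeroCyc.Place K E (AlgebraicClosure K)))
    (x : ZeroCyc.Place K E (AlgebraicClosure K) → Fin (X.N + 1) → AlgebraicClosure K),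
    X.On g → f ≠ 0 → Set.InjOn (fun P => P.v) (s : Set (ZeroCyc.Place K E (AlgebraicClosure K))) →
    (∀ P' : ZeroCyc.Place K E (AlgebraicClosure K), ord P'.v f ≠ 0 → ∃ P ∈ s, P'.v = P.v) →
    (∀ P ∈ s, x P ≠ 0 ∧ ∃ c, ∀ i, P.Val (c * g i) (x P i)) →
      ∑ P ∈ s, ord P.v f • X.ptv a (plF P) (x P) = 0

/-- classes without residues on the projective line are constant -/
def P1 : Prop := ∀ (K K₀ : Type) [Field K] [Field K₀] [Algebra K K₀] (t : K₀), Transcendental K t →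
  K⟮t⟯ = ⊤ → ∀ b : BR K₀, (∀ v : Vl K₀, Triv (algebraMap K K₀) v → Unram v b) →
    ∃ b₀ : BR K, b = rs (algebraMap K K₀) b₀

/-- local constancy -/
def LCA : Prop := ∀ (k : Type) [Field k] (X : Var k), EvApi X → X.LC

/-- vanishing at almost all places of a global function field -/
def AAA : Prop := ∀ (k : Type) [Field k] (F : Type) [Field F] [Finite F] [Algebra (RatFunc F) k]
  [FiniteDimensional (RatFunc F) k] (X : Var k), EvApi X → X.AA

/-- the statement of the theorem follows from the working version -/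
def BRG : Prop := ∀ (k : Type) [Field k] [IsEmpty (NumberField.InfinitePlace k)] (j : Invs k),
  ∃ j' : ∀ v : Place k, BR v.K →+ AddCircle (1 : ℚ), (∀ v, Function.Injective (j' v)) ∧
    ∀ X : Var k, EvApi X → (X.ZCs j ↔ X.ZCw j')

end Pool.Agent.ZCy.F
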