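import Pool.Agent.Lib.MP_751085_ag.ZF.A2b
import Pool.Agent.Lib.MP_751085_ag.ZC.G3
import Pool.Agent.Lib.MP_751085_ag.ZC.A5a

/-! Tsen's theorem. -/

namespace Pool.Agent.ZCy.F

open scoped Classical IntermediateField
open groupCohomology

theorem a5b_mem {K F M : Type} [Field K] [Field F] [Field M] [Algebra K F] (φ : F →+* M)
    (R : Subfield M) {s : Set F} (h0 : ∀ x : K, φ (algebraMap K F x) ∈ R) (hs : ∀ x ∈ s, φ x ∈ R)
    {x : F} (hx : x ∈ IntermediateField.adjoin K s) : φ x ∈ R := by
  have h : (IntermediateField.adjoin K s).toSubfield ≤ R.comap φ := by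
    rw [IntermediateField.adjoin_toSubfield, Subfield.closure_le]
    rintro y (⟨z, rfl⟩ | hy)
    exacts [h0 z, hs y hy]
  exact h hx

theorem a5b_hom {K k F M : Type} [Field K] [Field k] [Field F] [Field M] [Algebra K F]
    [Algebra k M] (φ : F →+* M) (τ : F)
    (h : ∀ x : K, ∃ y : k, φ (algebraMap K F x) = algebraMap k M y) :
    ∃ ι : K⟮τ⟯ →+* k⟮φ τ⟯, ∀ y, algebraMap k⟮φ τ⟯ M (ι y) = φ (algebraMap K⟮τ⟯ F y) := by
  have hm : ∀ y : K⟮τ⟯, (φ.comp (algebraMap K⟮τ⟯ F)) y ∈ k⟮φ τ⟯ := fun y =>
    a5b_mem φ (k⟮φ τ⟯).toSubfield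
      (fun x => by
        obtain ⟨z, hz⟩ := h x
        rw [hz]
        exact (k⟮φ τ⟯).algebraMap_mem z)
      (by
        rintro _ rfl
        exact IntermediateField.mem_adjoin_simple_self k _) y.2
  exact ⟨(φ.comp (algebraMap K⟮τ⟯ F)).codRestrict _ hm, fun _ => rfl⟩

theorem a5b_tower {A L F M : Type} [Field A] [Field L] [Field F] [Field M] [Algebra A F]
    [Algebra F M] [Algebra L M] [FiniteDimensional A F] [FiniteDimensional F M] (ι : A →+* L)
    (h : ∀ y, algebraMap L M (ι y) = algebraMap F M (algebraMap A F y)) :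
    FiniteDimensional L M := by
  let : Algebra A L := ι.toAlgebra
  let : Algebra A M := ((algebraMap F M).comp (algebraMap A F)).toAlgebra
  have : IsScalarTower A F M := IsScalarTower.of_algebraMap_eq fun _ => rfl
  have : IsScalarTower A L M := IsScalarTower.of_algebraMap_eq fun y => (h y).symm
  have : FiniteDimensional A M := Module.Finite.trans F M
  exact Module.Finite.of_restrictScalars_finite A L M

/-- norms are onto for all finite Galois extensions of finite extensions -/
def a5b_Good (F : Type) [Field F] : Prop :=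
  ∀ (M E : Type) [Field M] [Algebra F M] [FiniteDimensional F M] [Field E] [Algebra M E]
    [FiniteDimensional M E] [IsGalois M E] (f : M), ∃ x : E, Algebra.norm M x = f

theorem a5b_good_up {F : Type} [Field F] (h : a5b_Good F) (F' : Type) [Field F'] [Algebra F F']
    [FiniteDimensional F F'] : a5b_Good F' := by
  intro M E _ _ _ _ _ _ _ f
  let : Algebra F M := ((algebraMap F' M).comp (algebraMap F F')).toAlgebra
  have : IsScalarTower F F' M := IsScalarTower.of_algebraMap_eq fun _ => rfl
  have : FiniteDimensional F M := Module.Finite.trans F' M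
  exact h M E f

theorem a5b_good {k F : Type} [Field k] [IsAlgClosed k] [Field F] [Algebra k F] (τ : F)
    [FiniteDimensional k⟮τ⟯ F] : a5b_Good F := by
  intro M E _ _ _ _ _ _ _ f
  let : Algebra k M := ((algebraMap F M).comp (algebraMap k F)).toAlgebra
  obtain ⟨ι, hι⟩ := a5b_hom (K := k) (k := k) (algebraMap F M) τ fun x => ⟨x, rfl⟩
  have := a5b_tower (F := F) ι hι
  exact tsen_norm (k := k) (algebraMap F M τ) f

theorem a5b_cyc {F E G : Type} [Field F] [Field E] [Algebra F E] [Group G] [Finite G]
    [MulSemiringAction G E] [IsGaloisGroup G F E] [IsCyclic G]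
    (hN : ∀ f : F, ∃ x : E, Algebra.norm F x = f) {a : BR F} (h : rs (algebraMap F E) a = 0) :
    a = 0 := by
  obtain ⟨c, hc, rfl⟩ := exists_cls_of_rs E G h
  obtain ⟨s, hs⟩ := IsCyclic.exists_generator (α := G)
  have hfin : IsOfFinOrder s := isOfFinOrder_of_finite s
  have := IsGaloisGroup.isGalois G F E
  have := IsGaloisGroup.finiteDimensional G F E
  have := Fintype.ofFinite G
  have hn : ∀ f : Eˣ, s • f = f →
      ∃ x : Eˣ, f = ∏ i ∈ Finset.range (orderOf s), s ^ i • x := by
    intro f hf
    have hfix : ∀ g : G, g • (f : E) = f := fun g => by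
      have h1 : Subgroup.zpowers s ≤ MulAction.stabilizer G f := by
        rw [Subgroup.zpowers_le]
        exact hf
      exact congrArg Units.val (h1 (hs g))
    obtain ⟨y, hy⟩ := (IsGaloisGroup.isInvariant (G := G) (A := F) (B := E)).isInvariant _ hfix
    obtain ⟨x, hx⟩ := hN y
    have h2 : (f : E) = ∏ g : G, g • x := by
      rw [← hy, ← hx, Algebra.norm_eq_prod_automorphisms]
      exact (Fintype.prod_equiv (IsGaloisGroup.mulEquivAlgEquiv G F E).toEquiv _ _
        fun g => rfl).symm
    have hx0 : x ≠ 0 := by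
      rintro rfl
      exact f.ne_zero (h2.trans (Finset.prod_eq_zero (Finset.mem_univ 1) (smul_zero _)))
    refine ⟨Units.mk0 x hx0, Units.ext ?_⟩
    rw [h2, Units.coe_prod]
    symm
    refine Finset.prod_bij (fun i _ => s ^ i) (fun _ _ => Finset.mem_univ _)
      (fun i hi j hj e => pow_injOn_Iio_orderOf (Finset.mem_range.1 hi) (Finset.mem_range.1 hj) e)
      (fun g _ => ⟨xp s g, Finset.mem_range.2 (xp_lt hfin g), xp_spec hfin (hs g)⟩) fun i _ => rfl
  obtain ⟨e, he⟩ := cob_of_norm hfin hn (c := c) fun g _ g' _ j _ => hc g g' j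
  obtain rfl : c = dd e := funext fun p => he _ (hs _) _ (hs _)
  exact cls_dd e

theorem a5b_pgroup (p : ℕ) [hp : Fact p.Prime] (n : ℕ) : ∀ (F E : Type) [Field F]
    [Field E] [Algebra F E] [FiniteDimensional F E] [IsGalois F E], a5b_Good F →
      Module.finrank F E = p ^ n → ∀ a : BR F, rs (algebraMap F E) a = 0 → a = 0 := by
  induction n with
  | zero =>
    intro F E _ _ _ _ _ _ hn a ha
    have := finrank_smul_of_rs ha
    rwa [hn, pow_zero, one_nsmul] at this
  | succ n ih =>
    intro F E _ _ _ _ _ hg hn a ha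
    have hc : Nat.card (E ≃ₐ[F] E) = p ^ (n + 1) := (IsGalois.card_aut_eq_finrank F E).trans hn
    obtain ⟨H, hH⟩ := Sylow.exists_subgroup_card_pow_prime (G := E ≃ₐ[F] E) p (n := n)
      (hc ▸ pow_dvd_pow p n.le_succ)
    have hi : H.index = p := by
      have h1 := H.card_mul_index
      rw [hH, hc, pow_succ] at h1
      exact Nat.eq_of_mul_eq_mul_left (pow_pos hp.out.pos n) h1
    have : H.Normal := Subgroup.normal_of_index_eq_minFac_card (by
      rw [hi, hc, hp.out.pow_minFac n.succ_ne_zero])
    have h1 : Module.finrank (IntermediateField.fixedField H) E = p ^ n :=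
      (IntermediateField.finrank_fixedField_eq_card H).trans hH
    have h2 : Module.finrank F (IntermediateField.fixedField H) = p := by
      have h3 := Module.finrank_mul_finrank F (IntermediateField.fixedField H) E
      rw [h1, hn, pow_succ'] at h3
      exact Nat.eq_of_mul_eq_mul_right (pow_pos hp.out.pos n) h3
    have h3 : rs (algebraMap F (IntermediateField.fixedField H)) a = 0 := by
      refine ih (IntermediateField.fixedField H) E (a5b_good_up hg _) h1 _ ?_
      rw [res_res, ← IsScalarTower.algebraMap_eq]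
      exact ha
    have : IsCyclic (IntermediateField.fixedField H ≃ₐ[F] IntermediateField.fixedField H) :=
      isCyclic_of_prime_card ((IsGalois.card_aut_eq_finrank F _).trans h2)
    exact a5b_cyc (G := IntermediateField.fixedField H ≃ₐ[F] IntermediateField.fixedField H)
      (hg F _) h3

theorem a5b_zero {F : Type} [Field F] (hg : a5b_Good F) (a : BR F) : a = 0 := by
  obtain ⟨L, _, _, hL⟩ := exists_dies a
  by_contra h
  have h1 : addOrderOf a ≠ 1 := fun e => h (AddMonoid.addOrderOf_eq_one_iff.1 e)
  have hp : Fact (addOrderOf a).minFac.Prime := ⟨Nat.minFac_prime h1⟩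
  obtain ⟨P⟩ : Nonempty (Sylow (addOrderOf a).minFac (L ≃ₐ[F] L)) := inferInstance
  obtain ⟨n, hn⟩ := P.isPGroup'.exists_card_eq
  have h2 : rs (algebraMap F (IntermediateField.fixedField P.toSubgroup)) a = 0 := by
    refine a5b_pgroup _ n (IntermediateField.fixedField P.toSubgroup) L (a5b_good_up hg _)
      ((IntermediateField.finrank_fixedField_eq_card _).trans hn) _ ?_
    rw [res_res, ← IsScalarTower.algebraMap_eq]
    exact hL
  have h3 := addOrderOf_dvd_of_nsmul_eq_zero (finrank_smul_of_rs h2)
  rw [IntermediateField.finrank_eq_fixingSubgroup_index,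
    IntermediateField.fixingSubgroup_fixedField] at h3
  exact P.not_dvd_index ((Nat.minFac_dvd _).trans h3)

/-- Induction on `n`: for `E / F` Galois of degree `p ^ n` every `cls F c` is zero. Take a normal
subgroup of index `p` with fixed field `F'`; the restriction to `F'` is zero by induction (`rs_cls`),
so the class comes from the cyclic group of `F' / F` (`exists_cls_of_rs`); `cob_of_norm`,
`tsen_norm`. In general restrict to the fixed field of a Sylow subgroup, `finrank_smul_of_rs`, and
look at a prime factor of `addOrderOf a`. -/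
theorem tsen {k F : Type} [Field k] [IsAlgClosed k] [Field F] [Algebra k F] (τ : F)
    [FiniteDimensional k⟮τ⟯ F] (a : BR F) : a = 0 := by
  exact a5b_zero (a5b_good (k := k) τ) a

end Pool.Agent.ZCy.F
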