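import Pool.Agent.Lib.MP_751085_ag.ZF.A3b

/-! Consequences of the double coset formula. -/

namespace Pool.Agent.ZCy.F

open scoped Classical
open Module

variable {K K' M M' : Type} [Field K] [Field K'] [Field M] [Field M'] [Algebra K M]

variable (M) in
/-- the embeddings of `M` over `γ` -/
def EmO (γ : K →+* K') : Type :=
  {τ : M →+* SC K' // ∀ a, τ (algebraMap K M a) = algebraMap K' _ (γ a)}

/-- the compositum -/
noncomputable def EmO.fld {γ : K →+* K'} (τ : EmO M γ) : IntermediateField K' (SC K') :=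
  IntermediateField.adjoin K' (Set.range τ.1)

/-- the embedding into the compositum -/
noncomputable def EmO.hom {γ : K →+* K'} (τ : EmO M γ) : M →+* τ.fld :=
  τ.1.codRestrict τ.fld fun x => IntermediateField.subset_adjoin _ _ ⟨x, rfl⟩

theorem EmO.fin [FiniteDimensional K M] {γ : K →+* K'} (τ : EmO M γ) :
    FiniteDimensional K' τ.fld := by
  let b := Module.finBasis K M
  have e : τ.fld = IntermediateField.adjoin K' (Set.range fun i => τ.1 (b i)) := by
    refine le_antisymm (IntermediateField.adjoin_le_iff.2 ?_)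
      (IntermediateField.adjoin.mono _ _ _ ?_)
    · rintro _ ⟨x, rfl⟩
      rw [← b.sum_repr x, map_sum]
      refine sum_mem fun i _ => ?_
      rw [Algebra.smul_def, map_mul, τ.2]
      exact mul_mem (IntermediateField.algebraMap_mem _ _)
        (IntermediateField.subset_adjoin _ _ ⟨i, rfl⟩)
    · rintro _ ⟨i, rfl⟩
      exact ⟨b i, rfl⟩
  rw [e]
  exact IntermediateField.finiteDimensional_adjoin fun x _ => Algebra.IsIntegral.isIntegral x

instance [FiniteDimensional K M] {γ : K →+* K'} (τ : EmO M γ) : FiniteDimensional K' τ.fld := τ.fin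

theorem a3c_ext {γ : K →+* K'} {τ τ' : EmO M γ} (h : ∀ x, τ.1 x = τ'.1 x) : τ = τ' :=
  Subtype.ext (RingHom.ext h)

theorem a3c_em_ext {L : Type} [Field L] [Algebra K' L] {ψ ψ' : Em K' L}
    (h : ∀ x, ψ.hom x = ψ'.hom x) : ψ = ψ' := AlgHom.ext h

/-- the action of the group of `K'` on the embeddings over `γ` -/
noncomputable instance a3cAct {γ : K →+* K'} : MulAction (Gm K') (EmO M γ) where
  smul g τ := ⟨(g : SC K' →+* SC K').comp τ.1, fun a => by
    rw [RingHom.comp_apply, τ.2]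
    exact g.commutes _⟩
  one_smul _ := rfl
  mul_smul _ _ _ := rfl

theorem a3c_smul {γ : K →+* K'} (g : Gm K') (τ : EmO M γ) (x : M) : (g • τ).1 x = g (τ.1 x) := rfl

theorem a3c_orb {γ : K →+* K'} {τ τ' : EmO M γ} :
    (∃ g : Gm K', ∀ x, τ'.1 x = g (τ.1 x)) ↔ ∃ g : Gm K', τ' = g • τ :=
  exists_congr fun _ => ⟨fun h => a3c_ext h, fun h _ => h ▸ rfl⟩

/-- restriction of an embedding of `L` along `φ` -/
noncomputable def a3cRes {γ : K →+* K'} {L : Type} [Field L] [Algebra K' L] (φ : M →+* L)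
    (hφ : ∀ a, φ (algebraMap K M a) = algebraMap K' L (γ a)) (ψ : Em K' L) : EmO M γ :=
  ⟨(ψ.hom : L →+* SC K').comp φ, fun a => by
    rw [RingHom.comp_apply, hφ]
    exact ψ.hom.commutes _⟩

theorem a3c_hom_base {γ : K →+* K'} (τ : EmO M γ) (a : K) :
    τ.hom (algebraMap K M a) = algebraMap K' τ.fld (γ a) := Subtype.ext (τ.2 a)

/-- the inclusion of the compositum -/
noncomputable def a3cVal {γ : K →+* K'} (τ : EmO M γ) : Em K' τ.fld := τ.fld.val

theorem a3c_fld_ext {γ : K →+* K'} (τ : EmO M γ) {ψ ψ' : Em K' τ.fld}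
    (h : ∀ x, ψ.hom (τ.hom x) = ψ'.hom (τ.hom x)) : ψ = ψ' :=
  IntermediateField.adjoin_algHom_ext K' (s := Set.range τ.1) (φ₁ := ψ.hom) (φ₂ := ψ'.hom)
    (by rintro _ ⟨x, rfl⟩; exact h x)

theorem a3c_fld_orb {γ : K →+* K'} (τ : EmO M γ) (ψ : Em K' τ.fld) :
    ∃ g : Gm K', ∀ x, ψ.hom (τ.hom x) = g (τ.1 x) := by
  obtain ⟨g, rfl⟩ := em_trans (a3cVal τ) ψ
  exact ⟨g, fun _ => rfl⟩

theorem a3c_card_em {L : Type} [Field L] [Algebra K' L] [FiniteDimensional K' L]
    [Algebra.IsSeparable K' L] :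
    Nat.card (Em K' L) = finrank K' L :=
  AlgHom.natCard_of_splits K' L _ fun x =>
    IsSepClosed.splits_codomain _ (Algebra.IsSeparable.isSeparable K' x)

variable [FiniteDimensional K M] [Algebra.IsSeparable K M]

theorem EmO.card (γ : K →+* K') : Nat.card (EmO M γ) = finrank K M := by
  let : Algebra K (SC K') := ((algebraMap K' _).comp γ).toAlgebra
  let e : EmO M γ ≃ (M →ₐ[K] SC K') :=
    { toFun := fun τ => { τ.1 with commutes' := τ.2 }
      invFun := fun ψ => ⟨ψ, ψ.commutes⟩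
      left_inv := fun _ => rfl
      right_inv := fun _ => rfl }
  rw [Nat.card_congr e]
  exact AlgHom.natCard_of_splits K M _ fun x =>
    IsSepClosed.splits_codomain _ (Algebra.IsSeparable.isSeparable K x)

theorem a3c_finite (γ : K →+* K') : Finite (EmO M γ) :=
  Nat.finite_of_card_ne_zero (by rw [EmO.card]; exact finrank_pos.ne')

theorem a3c_nonempty (γ : K →+* K') : Nonempty (EmO M γ) :=
  (Nat.card_ne_zero.1 (by rw [EmO.card]; exact finrank_pos.ne')).1

/-- the number of conjugates of `τ` is the degree of the compositum -/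
theorem EmO.card_orbit {γ : K →+* K'} (τ : EmO M γ) :
    Nat.card {τ' : EmO M γ // ∃ g : Gm K', ∀ x, τ'.1 x = g (τ.1 x)} = finrank K' τ.fld := by
  rw [← a3c_card_em]
  symm
  refine Nat.card_congr (Equiv.ofBijective
    (fun ψ => ⟨a3cRes τ.hom (a3c_hom_base τ) ψ, a3c_fld_orb τ ψ⟩) ⟨fun ψ ψ' h => ?_, ?_⟩)
  · exact a3c_fld_ext τ fun x => congrArg (fun t => t.1.1 x) h
  · rintro ⟨τ', g, hg⟩
    exact ⟨g • a3cVal τ, Subtype.ext (a3c_ext fun x => (hg x).symm)⟩

theorem cor_one [Algebra K' M'] [FiniteDimensional K' M'] [Algebra.IsSeparable K' M'] (γ : K →+* K') (φ : M →+* M')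
    (hφ : ∀ a, φ (algebraMap K M a) = algebraMap K' M' (γ a))
    (ht : ∀ τ τ' : EmO M γ, ∃ g : Gm K', ∀ x, τ'.1 x = g (τ.1 x)) :
    ∃ n : ℕ, finrank K' M' = n * finrank K M ∧
      ∀ β : BR M, cor K' M' (rs φ β) = n • rs γ (cor K M β) := by
  obtain ⟨τ₀⟩ := a3c_nonempty (M := M) γ
  have := a3c_finite (M := M) γ
  have := Fintype.ofFinite (EmO M γ)
  have hc : ∀ τ : EmO M γ, Nat.card {ψ : Em K' M' // a3cRes φ hφ ψ = τ} =
      Nat.card {ψ : Em K' M' // a3cRes φ hφ ψ = τ₀} := by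
    intro τ
    obtain ⟨g, rfl⟩ := a3c_orb.1 (ht τ₀ τ)
    symm
    refine Nat.card_congr ((MulAction.toPerm g).subtypeEquiv fun ψ => ?_)
    exact (smul_left_cancel_iff g).symm
  refine ⟨Nat.card {ψ : Em K' M' // a3cRes φ hφ ψ = τ₀}, ?_, fun β => ?_⟩
  · rw [← a3c_card_em, ← EmO.card γ, ← Nat.card_congr (Equiv.sigmaFiberEquiv (a3cRes φ hφ)),
      Nat.card_sigma, Finset.sum_congr rfl fun τ _ => hc τ, Finset.sum_const, Finset.card_univ,
      Nat.card_eq_fintype_card (α := EmO M γ), smul_eq_mul, mul_comm]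
  · have h := cor_mk (ι := Unit) γ (fun _ => M') (fun _ => φ) (fun _ => hφ)
      (Nat.card {ψ : Em K' M' // a3cRes φ hφ ψ = τ₀}) (fun τ hτ => by
        rw [← hc ⟨τ, hτ⟩]
        exact Nat.card_congr
          { toFun := fun q => ⟨q.1.2, a3c_ext q.2⟩
            invFun := fun ψ => ⟨⟨(), ψ.1⟩, fun x => congrArg (fun t : EmO M γ => t.1 x) ψ.2⟩
            left_inv := fun _ => rfl
            right_inv := fun _ => rfl }) β
    rwa [Fintype.sum_unique] at h

theorem cor_rs [Algebra K M'] [FiniteDimensional K M'] [Algebra.IsSeparable K M'] (φ : M →ₐ[K] M') {n : ℕ}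
    (h : finrank K M' = n * finrank K M) (β : BR M) :
    cor K M' (rs (φ : M →+* M') β) = n • cor K M β := by
  obtain ⟨m, hm, hβ⟩ := cor_one (RingHom.id K) (φ : M →+* M') (fun a => φ.commutes a)
    fun τ τ' => by
      obtain ⟨g, hg⟩ := em_trans (K := K) (M := M)
        ({ τ.1 with commutes' := τ.2 } : M →ₐ[K] SC K)
        ({ τ'.1 with commutes' := τ'.2 } : M →ₐ[K] SC K)
      exact ⟨g, fun x => (congrArg (fun j : Em K M => j.hom x) hg).symm⟩
  obtain rfl : m = n := Nat.eq_of_mul_eq_mul_right finrank_pos (hm.symm.trans h)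
  rw [hβ, res_id]

theorem cor_equiv [Algebra K M'] [FiniteDimensional K M'] [Algebra.IsSeparable K M'] (φ : M ≃ₐ[K] M') (β : BR M) :
    cor K M' (rs (φ : M →+* M') β) = cor K M β :=
  (cor_rs (φ : M →ₐ[K] M') (n := 1)
    (by rw [one_mul, φ.toLinearEquiv.finrank_eq]) β).trans (one_nsmul _)

theorem cor_self (β : BR K) : cor K K β = β := by
  obtain ⟨c, hc, rfl⟩ := exists_cl β
  have : Subsingleton (Em K K) := inferInstanceAs (Subsingleton (K →ₐ[K] SC K))
  let j : Em K K := Algebra.ofId K (SC K)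
  let b : Gm K × Gm K → Ind (SC K)ˣ (Em K K) := fun p _ => c p
  have hb : Shap b (cl K _ c) := shap_of_cmp (fun g h k => funext fun _ => hc.1 g h k)
    ((mem_Z2.1 hc).2.comp fun u (_ : Em K K) => u) (j := j) (J := RingHom.id _) (r := id)
    (fun _ => rfl) (fun _ _ => rfl) rfl
  rw [cor_apply, hb.corF_eq]
  congr 1
  exact funext fun p => Fintype.prod_subsingleton _ j

theorem cor_res (β : BR K) : cor K M (rs (algebraMap K M) β) = finrank K M • β :=
  (cor_rs (Algebra.ofId K M) (n := finrank K M) (by rw [finrank_self, mul_one]) β).trans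
    (by rw [cor_self])

variable (M) in
/-- `T` is a set of representatives of the orbits -/
theorem cor_orbits (γ : K →+* K') : ∃ T : Finset (EmO M γ),
    (∀ τ : EmO M γ, ∃! τ₀, τ₀ ∈ T ∧ ∃ g : Gm K', ∀ x, τ.1 x = g (τ₀.1 x)) ∧
    ∑ τ ∈ T, finrank K' τ.fld = finrank K M ∧
    ∀ β : BR M, rs γ (cor K M β) = ∑ τ ∈ T, cor K' τ.fld (rs τ.hom β) := by
  have := a3c_finite (M := M) γ
  have := Fintype.ofFinite (EmO M γ)
  obtain ⟨S⟩ := exists_sec (Gm K') (EmO M γ)
  have hm : ∀ τ : EmO M γ, S.rep τ ∈ Finset.univ.filter fun s => S.rep s = s := fun τ =>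
    Finset.mem_filter.2 ⟨Finset.mem_univ _, S.rep_rep τ⟩
  have ho : ∀ τ₀ ∈ Finset.univ.filter fun s : EmO M γ => S.rep s = s, ∀ τ : EmO M γ,
      (∃ g : Gm K', ∀ x, τ.1 x = g (τ₀.1 x)) ↔ S.rep τ = τ₀ := fun τ₀ h τ => by
    rw [a3c_orb]
    constructor
    · rintro ⟨g, rfl⟩
      rw [S.rep_smul, (Finset.mem_filter.1 h).2]
    · rintro rfl
      exact ⟨S.t τ, (S.t_smul τ).symm⟩
  refine ⟨Finset.univ.filter fun s => S.rep s = s, fun τ => ⟨S.rep τ, ⟨hm τ, (ho _ (hm τ) τ).2 rfl⟩,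
    fun τ₀ h => ((ho _ h.1 τ).1 h.2).symm⟩, ?_, fun β => ?_⟩
  · rw [← EmO.card γ, Nat.card_eq_fintype_card, ← Finset.card_univ,
      Finset.card_eq_sum_card_fiberwise (f := S.rep) fun τ _ => hm τ]
    refine Finset.sum_congr rfl fun τ₀ h => ?_
    rw [← EmO.card_orbit, Nat.card_congr (Equiv.subtypeEquivRight (ho τ₀ h)),
      Nat.card_eq_fintype_card, Fintype.card_subtype]
  · have h := cor_mk (ι := (Finset.univ.filter fun s : EmO M γ => S.rep s = s)) γ
      (fun i => i.1.fld) (fun i => i.1.hom) (fun i => a3c_hom_base i.1) 1 (fun τ hτ => by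
        rw [Nat.card_eq_one_iff_unique]
        constructor
        · constructor
          rintro ⟨⟨i, ψ⟩, h⟩ ⟨⟨i', ψ'⟩, h'⟩
          have u : ∀ (i : (Finset.univ.filter fun s : EmO M γ => S.rep s = s)) (ψ : Em K' i.1.fld),
              (∀ x, ψ.hom (i.1.hom x) = τ x) → S.rep ⟨τ, hτ⟩ = i.1 := fun i ψ h =>
            (ho _ i.2 _).1 ((a3c_fld_orb i.1 ψ).imp fun g hg x => (h x).symm.trans (hg x))
          obtain rfl : i = i' := Subtype.ext ((u i ψ h).symm.trans (u i' ψ' h'))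
          obtain rfl : ψ = ψ' := a3c_fld_ext i.1 fun x => (h x).trans (h' x).symm
          rfl
        · exact ⟨⟨⟨⟨S.rep ⟨τ, hτ⟩, hm _⟩, S.t ⟨τ, hτ⟩ • a3cVal (S.rep ⟨τ, hτ⟩)⟩,
            fun x => congrArg (fun t : EmO M γ => t.1 x) (S.t_smul ⟨τ, hτ⟩)⟩⟩) β
    exact ((one_nsmul _).symm.trans h.symm).trans
      (Finset.sum_coe_sort _ fun τ : EmO M γ => cor K' τ.fld (rs τ.hom β))

theorem emo_trans {γ : K →+* K'}
    (h : ∀ p : Polynomial K, p.Monic → Irreducible p → Irreducible (p.map γ)) (τ τ' : EmO M γ) :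
    ∃ g : Gm K', ∀ x, τ'.1 x = g (τ.1 x) := by
  let pb := Field.powerBasisOfFiniteOfSeparable K M
  have hi : IsIntegral K pb.gen := Algebra.IsIntegral.isIntegral _
  have ev : ∀ (t : EmO M γ) (q : Polynomial K), t.1 (Polynomial.aeval pb.gen q) =
      Polynomial.aeval (t.1 pb.gen) (q.map γ) := fun t q => by
    rw [Polynomial.aeval_def, Polynomial.hom_eval₂, Polynomial.aeval_def, Polynomial.eval₂_map]
    congr 1
    exact RingHom.ext t.2
  have mp : ∀ t : EmO M γ, (minpoly K pb.gen).map γ = minpoly K' (t.1 pb.gen) := fun t =>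
    minpoly.eq_of_irreducible_of_monic (h _ (minpoly.monic hi) (minpoly.irreducible hi))
      (by rw [← ev, minpoly.aeval, map_zero]) ((minpoly.monic hi).map γ)
  obtain ⟨g, hg⟩ := IsConjRoot.exists_algEquiv (K := K') (x := τ'.1 pb.gen) (y := τ.1 pb.gen)
    ((mp τ').symm.trans (mp τ))
  refine ⟨g, fun x => ?_⟩
  obtain ⟨q, rfl⟩ := pb.exists_eq_aeval' x
  rw [ev, ev, ← hg, Polynomial.aeval_algEquiv]
  rfl

end Pool.Agent.ZCy.F
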