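import Pool.Agent.Lib.MP_751085_ag.ZF.Defs
import Pool.Agent.Lib.MP_751085_ag.ZF.A3c
import Pool.Agent.Lib.MP_751085_ag.ZC.PDefs
import Pool.Agent.Lib.MP_751085_ag.ZC.VDefs

/-! Unit cocycles, values of classes at points, corestriction for all finite extensions. -/

namespace Pool.Agent.ZCy.F

open scoped Classical Topology
open groupCohomology

attribute [scoped instance 10] Units.mulDistribMulActionRight

/-- a Galois covering `A` of the ring `O` with group `G` and a cocycle with unit values -/
structure UC (O : Type) [CommRing O] : Type 1 where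
  G : Type
  A : Type
  [grp : Group G]
  [fin : Fintype G]
  [ring : CommRing A]
  [act : MulSemiringAction G A]
  i : O →+* A
  inj : Function.Injective i
  inv : ∀ y, y ∈ i.range ↔ ∀ g : G, g • y = y
  crd : ∃ (m : ℕ) (x y : Fin m → A), ∀ g : G, ∑ j, x j * g • y j = if g = 1 then 1 else 0
  c : G × G → Aˣ
  coc : IsMulCocycle₂ c

attribute [instance] UC.grp UC.fin UC.ring UC.act

/-- pull-back of a cochain with values in the units of a ring -/
def pullR {G G' A A' : Type} [CommRing A] [CommRing A'] (ρ : A →+* A') (r : G' → G)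
    (c : G × G → Aˣ) (p : G' × G') : A'ˣ := Units.map (ρ : A →* A') (c (r p.1, r p.2))

section uc

variable {O M : Type} [CommRing O] [Field M] (U : UC O)

/-- `ρ` is a point of the covering above `φ` and `r` describes the Galois action on it -/
structure UC.At (φ : O →+* M) {Ω G' : Type} [Field Ω] [Algebra M Ω] [Group G']
    [MulSemiringAction G' Ω] (ρ : U.A →+* Ω) (r : G' → U.G) : Prop where
  base : ∀ o, ρ (U.i o) = algebraMap M Ω (φ o)
  comm : ∀ g y, ρ (r g • y) = g • ρ y

/-- the value at the point `φ` -/
noncomputable def UC.val (φ : O →+* M) : BR M :=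
  if h : ∃ q : (U.A →+* SC M) × (Gm M → U.G), U.At φ q.1 q.2 then
    cl M _ (pullR h.choose.1 h.choose.2 U.c) else 0

/-- the classes that come from the Brauer group of the subring `R` -/
noncomputable def Loc (R : Subring M) : AddSubgroup (BR M) :=
  AddSubgroup.closure {a | ∃ U : UC R, U.val R.subtype = a}

end uc

section cor

variable (K M : Type) [Field K] [Field M] [Algebra K M]

theorem exists_frS [FiniteDimensional K M] : ∃ φ : M →+* separableClosure K M,
    ∀ y, (φ y : M) = y ^ Field.finInsepDegree K M := by
  obtain ⟨p, _⟩ := ExpChar.exists K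
  obtain ⟨n, hn⟩ := finInsepDegree_eq_pow K M p
  have : ExpChar M p := expChar_of_injective_algebraMap (algebraMap K M).injective p
  have : ExpChar (separableClosure K M) p :=
    expChar_of_injective_algebraMap (algebraMap K _).injective p
  have h : ∀ y : M, iterateFrobenius M p n y ∈ separableClosure K M := fun y => by
    obtain ⟨m, a, h⟩ := IsPurelyInseparable.minpoly_eq_X_pow_sub_C (separableClosure K M) p y
    have h1 := minpoly.degree_dvd (K := separableClosure K M)
      (Algebra.IsIntegral.isIntegral (R := separableClosure K M) y)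
    have h2 := minpoly.aeval (separableClosure K M) y
    rw [h, Polynomial.natDegree_X_pow_sub_C] at h1
    rw [h, map_sub, map_pow, Polynomial.aeval_X, Polynomial.aeval_C, sub_eq_zero] at h2
    obtain ⟨d, hd⟩ := h1
    rw [iterateFrobenius_def, ← hn, Field.finInsepDegree, hd, pow_mul, h2]
    exact pow_mem a.2 d
  exact ⟨(iterateFrobenius M p n).codRestrict _ h, fun y => by rw [hn]; rfl⟩

/-- the norm to the separable part, a power of the Frobenius map -/
noncomputable def frS [FiniteDimensional K M] : M →+* separableClosure K M :=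
  (exists_frS K M).choose

/-- corestriction for all finite extensions -/
noncomputable def corN : BR M →+ BR K :=
  if _ : FiniteDimensional K M then (cor K (separableClosure K M)).comp (rs (frS K M)) else 0

end cor

section bridge

variable (K Ω : Type) [Field K] [Field Ω] [Algebra K Ω]

/-- the comparison with the Brauer group of the statement -/
noncomputable def frW : BR K →+ Brs K Ω :=
  if h : ∃ f : BR K →+ Brs K Ω, ∀ (j : SC K →ₐ[K] Ω) (r : (Ω ≃ₐ[K] Ω) → Gm K),
    (∀ g x, j (r g x) = g (j x)) → ∀ c ∈ Z2 K (SC K),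
      f (cl K _ c) = clS K Ω (pull (j : SC K →+* Ω) r c) then h.choose else 0

end bridge

end Pool.Agent.ZCy.F

namespace Pool.Agent.ZCy

open scoped Classical Topology
open F

variable {k : Type} [Field k] (X : Var k) {M : Type} [Field M] [Algebra k M]

/-- the local ring at a point -/
def Var.LR (x : Fin (X.N + 1) → M) : Subring X.F :=
  Subring.closure {f | ∃ m, X.Reg x f m}

/-- `e` is the evaluation of functions at the point `x` -/
def Var.IsEv (x : Fin (X.N + 1) → M) (e : X.LR x →+* M) : Prop :=
  ∀ (f : X.LR x) (m : M), X.Reg x f m → e f = m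

/-- `a` comes from the local ring at `x` and has the value `β` there -/
def Var.Vw (a : F.BR X.F) (x : Fin (X.N + 1) → M) (β : F.BR M) : Prop :=
  ∃ (U : UC (X.LR x)) (e : X.LR x →+* M), X.IsEv x e ∧ U.val (X.LR x).subtype = a ∧ U.val e = β

/-- the local rings of `X` -/
def Var.lrs : Set (Subring X.F) :=
  {R | ∃ (M : Type) (_ : Field M) (_ : Algebra k M) (x : Fin (X.N + 1) → M), X.On x ∧ R = X.LR x}

/-- the Brauer group of `X` -/
noncomputable def Var.Bw : AddSubgroup (F.BR X.F) := ⨅ R ∈ X.lrs, F.Loc R

/-- the value of a class at a point with coordinates in `M` -/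
noncomputable def Var.vl (a : F.BR X.F) (M : Type) [Field M] [Algebra k M]
    (x : Fin (X.N + 1) → M) : F.BR M := Classical.epsilon (X.Vw a x)

variable {L : Type} [Field L] [Algebra k L]

/-- the class `[x]_M(a)` of a point with coordinates in the subfield `M` -/
noncomputable def Var.ptv (a : F.BR X.F) (M : IntermediateField L (AlgebraicClosure L))
    (x : Fin (X.N + 1) → AlgebraicClosure L) : F.BR L :=
  if h : ∀ i, x i ∈ M then corN L M (X.vl a M fun i => ⟨x i, h i⟩) else 0

variable {X}

/-- the pairing of cycles with classes -/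
noncomputable def Var.pr (z : X.Cyc L) (a : F.BR X.F) : F.BR L :=
  z.sum fun x n => n • X.ptv a (Var.res x) x.1

variable (X)

/-- the class `a` on `Y` and the class `b` on `X` have the same values on `Y` -/
def Var.Mt (Y : Gen k X.N) (a : F.BR Y.F) (b : F.BR X.F) : Prop :=
  a ∈ Y.var.Bw ∧ b ∈ X.Bw ∧ ∀ (M : Type) [Field M] [Algebra k M]
    (x : Fin (X.N + 1) → M), Y.var.On x → Y.var.vl a M x = X.vl b M x

/-- the property (ZC) over a field without archimedean places -/
def Var.ZCw (j : ∀ v : Place k, F.BR v.K →+ AddCircle (1 : ℚ)) : Prop :=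
  (∃ z : ∀ v : Place k, X.Cyc v.K, (∀ v, Var.deg (z v) = 1) ∧
    ∀ a ∈ X.Bw, ∑ᶠ v, j v (Var.pr (z v) a) = 0) → ∃ z : X.Cyc k, Var.deg z = 1

/-- the values are locally constant on the points over a local field -/
def Var.LC : Prop := ∀ a ∈ X.Bw, ∀ (L : Type) [NontriviallyNormedField L] [IsUltrametricDist L]
  [CompleteSpace L] [Algebra k L] (x : Fin (X.N + 1) → L), X.On x →
    ∀ᶠ x' in 𝓝 x, X.On x' → X.vl a L x' = X.vl a L x

/-- a class vanishes at almost all places -/
def Var.AA : Prop := ∀ a ∈ X.Bw, ∃ S : Set (Place k), S.Finite ∧ ∀ v ∉ S,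
  ∀ (L : Type) [Field L] [Algebra v.K L] [FiniteDimensional v.K L] [Algebra k L]
    [IsScalarTower k v.K L] (x : Fin (X.N + 1) → L), X.On x → X.vl a L x = 0

end Pool.Agent.ZCy
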