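import Pool.Agent.Lib.MP_751085_ag.ZC.ADefs

/-! Brauer groups with separable closures, in any characteristic. -/

namespace Pool.Agent.ZCy.F

open scoped Classical
open groupCohomology

/-- the separable closure -/
def SC (K : Type) [Field K] : Type := SeparableClosure K

section sc

variable (K : Type) [Field K]

noncomputable instance : Field (SC K) := inferInstanceAs (Field (SeparableClosure K))

noncomputable instance {R : Type} [CommSemiring R] [Algebra R K] : Algebra R (SC K) :=
  inferInstanceAs (Algebra R (SeparableClosure K))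

instance {R S : Type} [CommSemiring R] [CommSemiring S] [Algebra R S] [Algebra S K] [Algebra R K]
    [IsScalarTower R S K] : IsScalarTower R S (SC K) :=
  IsScalarTower.of_algebraMap_eq fun a =>
    Subtype.ext (IsScalarTower.algebraMap_apply R S (AlgebraicClosure K) a)

instance : IsSepClosure K (SC K) := inferInstanceAs (IsSepClosure K (SeparableClosure K))

instance : IsSepClosed (SC K) := inferInstanceAs (IsSepClosed (SeparableClosure K))

instance {L : Type} [Field L] [Algebra K L] [Algebra.IsSeparable K L] : IsSepClosure K (SC L) :=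
  ⟨inferInstance, Algebra.IsSeparable.trans K L (SC L)⟩

instance (M : IntermediateField K (SC K)) : IsSepClosure M (SC K) := ⟨inferInstance, inferInstance⟩

/-- the inclusion into the algebraic closure -/
noncomputable def SC.val : SC K →ₐ[K] AlgebraicClosure K :=
  (separableClosure K (AlgebraicClosure K)).val

end sc

/-- the Brauer group of `K` -/
abbrev BR (K : Type) [Field K] : Type := Br K (SC K)

/-- the absolute Galois group -/
abbrev Gm (K : Type) [Field K] : Type := SC K ≃ₐ[K] SC K

section res

variable {K Ω K' Ω' : Type} [Field K] [Field Ω] [Algebra K Ω] [Field K'] [Field Ω'] [Algebra K' Ω']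

/-- `j` lies over `γ` and `r` is the induced map of the groups -/
abbrev Lk (γ : K →+* K') (j : Ω →+* Ω') (r : (Ω' ≃ₐ[K'] Ω') → Ω ≃ₐ[K] Ω) : Prop := ZCy.Lk γ j r

theorem exists_lk_of [Normal K Ω] {γ : K →+* K'} {j : Ω →+* Ω'}
    (h : ∀ a, j (algebraMap K Ω a) = algebraMap K' Ω' (γ a)) : ∃ r, Lk γ j r := ZCy.exists_lk_of h

theorem exists_lk [IsGalois K Ω] [IsSepClosed Ω'] (γ : K →+* K') :
    ∃ (j : Ω →+* Ω') (r : _), Lk γ j r := by
  let : Algebra K Ω' := ((algebraMap K' Ω').comp γ).toAlgebra
  let j : Ω →ₐ[K] Ω' := IsSepClosed.lift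
  obtain ⟨r, hr⟩ := exists_lk_of (γ := γ) (j := (j : Ω →+* Ω')) fun a => j.commutes a
  exact ⟨j, r, hr⟩

/-- restriction along `γ`, between any separable closures -/
noncomputable def res [IsSepClosure K Ω] [IsSepClosure K' Ω'] (γ : K →+* K') :
    Br K Ω →+ Br K' Ω' :=
  haveI := IsSepClosure.sep_closed K' (K := Ω')
  (exists_lk (Ω := Ω) (Ω' := Ω') γ).choose_spec.choose_spec.map

end res

variable (K : Type) [Field K]

/-- restriction along `γ` for the standard separable closures -/
noncomputable abbrev rs {K K' : Type} [Field K] [Field K'] (γ : K →+* K') : BR K →+ BR K' := res γ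

/-- the class of a cocycle of a group `G` acting on `E` with fixed field `K` -/
noncomputable def cls {G E : Type} [Group G] [Field E] [Algebra K E] [MulSemiringAction G E]
    (c : G × G → Eˣ) : BR K :=
  if h : ∃ q : (E →ₐ[K] SC K) × (Gm K → G), ∀ g x, q.1 (q.2 g • x) = g (q.1 x) then
    cl K _ (pull (h.choose.1 : E →+* SC K) h.choose.2 c) else 0

variable (M : Type) [Field M] [Algebra K M]

/-- the embeddings of `M` into the separable closure of `K` -/
def Em : Type := M →ₐ[K] SC K

noncomputable instance : MulAction (Gm K) (Em K M) where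
  smul g j := (g : SC K →ₐ[K] SC K).comp j
  one_smul _ := rfl
  mul_smul _ _ _ := rfl

noncomputable instance [FiniteDimensional K M] : Fintype (Em K M) :=
  inferInstanceAs (Fintype (M →ₐ[K] SC K))

variable {K M}

/-- the underlying homomorphism -/
def Em.hom (j : Em K M) : M →ₐ[K] SC K := j

theorem Em.smul_hom (g : Gm K) (j : Em K M) (x : M) : (g • j).hom x = g (j.hom x) := rfl

/-- `b` is a continuous cocycle with values in maps on the embeddings, with components `β` -/
structure Shap (b : Gm K × Gm K → Ind (SC K)ˣ (Em K M)) (β : BR M) : Prop where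
  coc : IsMulCocycle₂ b
  lc : LocConst K (SC K) 2 fun g => b (g 0, g 1)
  cmp : ∀ (j : Em K M) (J : SC K →+* SC M) (r : Gm M → Gm K),
    (∀ x, J (j.hom x) = algebraMap M _ x) → (∀ g x, J (r g x) = g (J x)) →
      β = cl M _ (pull J r fun p => b p j)

variable (K M)

/-- corestriction as a function for separable `M / K`; the additive map is `cor` -/
noncomputable def corF [FiniteDimensional K M] (β : BR M) : BR K :=
  Classical.epsilon fun a => ∃ b, Shap b β ∧ a = cl K _ fun p => ∏ j, b p j

end Pool.Agent.ZCy.F
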