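import Pool.Agent.Lib.MP_751085_ag.ZF.A1

/-! The class of a cocycle of a finite Galois group. -/

namespace Pool.Agent.ZCy.F

open scoped Classical
open groupCohomology

variable {K K' Ω Ω' E E' G G' : Type} [Field K] [Field K'] [Field Ω] [Field Ω'] [Field E] [Field E']
  [Algebra K Ω] [Algebra K' Ω'] [Algebra K E] [Algebra K' E'] [Group G] [Group G']
  [MulSemiringAction G E] [MulSemiringAction G' E'] {c c' : G × G → Eˣ}

theorem a2_surj [Finite G] [IsGaloisGroup G K E] (τ : E ≃ₐ[K] E) : ∃ σ : G, ∀ x, σ • x = τ x := by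
  obtain ⟨σ, rfl⟩ := (IsGaloisGroup.mulEquivAlgEquiv G K E).surjective τ
  exact ⟨σ, fun _ => rfl⟩

theorem exists_pull [Finite G] [IsGaloisGroup G K E] [SMulCommClass G' K' E'] {γ : K →+* K'}
    {j : E →+* E'} (hj : ∀ a, j (algebraMap K E a) = algebraMap K' E' (γ a)) :
    ∃ r : G' → G, ∀ g x, j (r g • x) = g • j x := by
  have := IsGaloisGroup.isGalois G K E
  obtain ⟨r, hr⟩ := exists_lk_of (K := K) (Ω := E) (K' := K') (Ω' := E') hj
  choose σ hσ using a2_surj (G := G) (K := K) (E := E)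
  refine ⟨fun g => σ (r (MulSemiringAction.toAlgEquiv K' E' g)), fun g x => ?_⟩
  rw [hσ, hr.comm]
  rfl

theorem link_locConst [Finite G] [FaithfulSMul G E] {j : E →+* Ω'} {r : (Ω' ≃ₐ[K'] Ω') → G}
    (hr : ∀ g x, j (r g • x) = g (j x)) {A : Type} {n : ℕ} (f : (Fin n → G) → A) :
    LocConst K' Ω' n fun g => f fun i => r (g i) := by
  have h : ∀ p : G × G, ∃ x : E, p.1 • x = p.2 • x → p.1 = p.2 := fun p => by
    by_contra hc
    push Not at hc
    exact (hc 0).2 (eq_of_smul_eq_smul fun x : E => (hc x).1)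
  choose x hx using h
  have := Fintype.ofFinite G
  refine ⟨Finset.univ.image fun p => j (x p), fun g g' e => congrArg f (funext fun i => ?_)⟩
  refine hx (r (g i), r (g' i)) (j.injective ?_)
  rw [hr, hr]
  exact e i _ (Finset.mem_image_of_mem _ (Finset.mem_univ _))

theorem pull_mem_Z2 [Finite G] [FaithfulSMul G E] {j : E →+* Ω'} {r : (Ω' ≃ₐ[K'] Ω') → G}
    (hr : ∀ g x, j (r g • x) = g (j x)) (hc : IsMulCocycle₂ c) : pull j r c ∈ Z2 K' Ω' :=
  ⟨pull_coc hr hc, link_locConst hr fun v : Fin 2 → G => Units.map (j : E →* Ω') (c (v 0, v 1))⟩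

theorem pull_mem_B2 [Finite G] [FaithfulSMul G E] {j : E →+* Ω'} {r : (Ω' ≃ₐ[K'] Ω') → G}
    (hr : ∀ g x, j (r g • x) = g (j x)) (e : G → Eˣ) : pull j r (dd e) ∈ B2 K' Ω' :=
  ⟨fun g => Units.map (j : E →* Ω') (e (r g)),
    link_locConst hr fun v : Fin 1 → G => Units.map (j : E →* Ω') (e (v 0)),
    fun g g' => congrFun (pull_dd hr e) (g, g')⟩

theorem exists_level [IsGalois K Ω] (s : Finset Ω) :
    ∃ E : IntermediateField K Ω, FiniteDimensional K E ∧ IsGalois K E ∧ ∀ x ∈ s, x ∈ E :=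
  ⟨(FiniteGaloisIntermediateField.adjoin K (s : Set Ω)).toIntermediateField, inferInstance,
    inferInstance, fun _ hx => FiniteGaloisIntermediateField.subset_adjoin K (s : Set Ω) hx⟩

theorem locConst_finite [Algebra.IsAlgebraic K Ω] {A : Type} {n : ℕ}
    {f : (Fin n → (Ω ≃ₐ[K] Ω)) → A} (h : LocConst K Ω n f) : (Set.range f).Finite := by
  obtain ⟨s, hs⟩ := h
  have : Nonempty A := ⟨f 1⟩
  let φ : (Fin n → (Ω ≃ₐ[K] Ω)) → Fin n → s → Ω := fun g i x => g i x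
  obtain ⟨e, he⟩ := (Function.factorsThrough_iff (f := φ) f).1 fun g g' u =>
    hs g g' fun i x hx => congrFun (congrFun u i) ⟨x, hx⟩
  rw [he, Set.range_comp]
  refine Set.Finite.image e (Set.Finite.subset (Set.Finite.pi' fun _ : Fin n =>
    Set.Finite.pi' fun x : s => (minpoly K (x : Ω)).rootSet_finite Ω) ?_)
  rintro _ ⟨g, rfl⟩ i x
  have hx := (Algebra.IsAlgebraic.isAlgebraic (R := K) (x : Ω)).isIntegral
  rw [Polynomial.mem_rootSet]
  exact ⟨minpoly.ne_zero hx, by rw [Polynomial.aeval_algHom_apply, minpoly.aeval, map_zero]⟩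

theorem exists_descent [IsGalois K Ω] {x : (Ω ≃ₐ[K] Ω) × (Ω ≃ₐ[K] Ω) → Ωˣ} {e : (Ω ≃ₐ[K] Ω) → Ωˣ}
    (hx : LocConst K Ω 2 fun g => x (g 0, g 1)) (he : LocConst K Ω 1 fun g => e (g 0))
    (s : Finset Ω) : ∃ (L : IntermediateField K Ω) (_ : FiniteDimensional K L) (_ : IsGalois K L)
      (x₀ : (L ≃ₐ[K] L) × (L ≃ₐ[K] L) → Lˣ) (e₀ : (L ≃ₐ[K] L) → Lˣ), (∀ y ∈ s, y ∈ L) ∧
        x = pull (algebraMap L Ω) (AlgEquiv.restrictNormalHom L) x₀ ∧
        e = fun g => Units.map (algebraMap L Ω : L →* Ω) (e₀ (AlgEquiv.restrictNormalHom L g)) := by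
  have fx := locConst_finite hx
  have fe := locConst_finite he
  obtain ⟨s₁, h₁⟩ := hx
  obtain ⟨s₂, h₂⟩ := he
  obtain ⟨L, hf, hg, hL⟩ := exists_level (K := K)
    (s ∪ (s₁ ∪ s₂) ∪ (fx.union fe).toFinset.image Units.val)
  choose σ hσ using AlgEquiv.restrictNormalHom_surjective (F := K) (K₁ := L) Ω
  have hv : ∀ u : Ωˣ, u ∈ (fx.union fe).toFinset →
      ∃ v : Lˣ, Units.map (algebraMap L Ω : L →* Ω) v = u := fun u hu =>
    ⟨Units.mk0 ⟨u, hL _ (Finset.mem_union_right _ (Finset.mem_image_of_mem _ hu))⟩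
      fun h => u.ne_zero (congrArg Subtype.val h), Units.ext rfl⟩
  have ha : ∀ g, ∀ y ∈ s₁ ∪ s₂, g y = σ (AlgEquiv.restrictNormalHom L g) y := fun g y hy => by
    have hy' := hL y (Finset.mem_union_left _ (Finset.mem_union_right _ hy))
    have h1 := AlgEquiv.restrictNormalHom_apply L (σ (AlgEquiv.restrictNormalHom L g)) ⟨y, hy'⟩
    rw [hσ, AlgEquiv.restrictNormalHom_apply] at h1
    exact h1
  choose x₀ hx₀ using fun p : (L ≃ₐ[K] L) × (L ≃ₐ[K] L) => hv (x (σ p.1, σ p.2))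
    ((Set.Finite.mem_toFinset _).2 (Or.inl ⟨![σ p.1, σ p.2], rfl⟩))
  choose e₀ he₀ using fun p : L ≃ₐ[K] L => hv (e (σ p))
    ((Set.Finite.mem_toFinset _).2 (Or.inr ⟨fun _ => σ p, rfl⟩))
  refine ⟨L, hf, hg, x₀, e₀, fun y hy =>
    hL y (Finset.mem_union_left _ (Finset.mem_union_left _ hy)), funext fun p => ?_,
    funext fun g => ?_⟩
  · rw [pull, hx₀]
    exact h₁ ![p.1, p.2] (fun i => σ (AlgEquiv.restrictNormalHom L (![p.1, p.2] i)))
      fun i y hy => ha _ y (Finset.mem_union_left _ hy)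
  · rw [he₀]
    exact h₂ (fun _ => g) (fun _ => σ (AlgEquiv.restrictNormalHom L g))
      fun _ y hy => ha _ y (Finset.mem_union_right _ hy)

section aux

variable [Finite G] [IsGaloisGroup G K E]

theorem a2_two (γ : K →+* K') {j j₂ : E →+* Ω'}
    (hj : ∀ a, j (algebraMap K E a) = algebraMap K' Ω' (γ a))
    (hj₂ : ∀ a, j₂ (algebraMap K E a) = algebraMap K' Ω' (γ a)) {r r₂ : (Ω' ≃ₐ[K'] Ω') → G}
    (hr : ∀ g x, j (r g • x) = g (j x)) (hr₂ : ∀ g x, j₂ (r₂ g • x) = g (j₂ x))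
    (hc : IsMulCocycle₂ c) : cl K' Ω' (pull j₂ r₂ c) = cl K' Ω' (pull j r c) := by
  have := IsGaloisGroup.isGalois G K E
  have : FaithfulSMul G E := IsGaloisGroup.faithful K
  obtain ⟨σ, hσ⟩ : ∃ σ : G, ∀ x, j (σ • x) = j₂ x := by
    let : Algebra K Ω' := ((algebraMap K' Ω').comp γ).toAlgebra
    let : Algebra E Ω' := j.toAlgebra
    have : IsScalarTower K E Ω' := IsScalarTower.of_algebraMap_eq fun a => (hj a).symm
    let φ : E →ₐ[K] Ω' := { j₂ with commutes' := hj₂ }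
    obtain ⟨σ, hσ⟩ := a2_surj (G := G) (φ.restrictNormal' E)
    exact ⟨σ, fun x => by rw [hσ]; exact φ.restrictNormal_commutes E x⟩
  have hr' : ∀ g, r₂ g = σ⁻¹ * r g * σ := fun g =>
    eq_of_smul_eq_smul fun x : E => j₂.injective (by
      rw [hr₂, ← hσ, ← hσ, ← hr, mul_smul, mul_smul, smul_inv_smul])
  have e : pull j₂ r₂ c = pull j r c * pull j r (dd (conjE c σ)) := funext fun p => by
    rw [← pull_mul, pull, pull, Pi.mul_apply, hr', hr',
      ← (coc_iff.1 hc).conj (σ := σ) trivial trivial trivial]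
    exact Units.ext (hσ _).symm
  rw [e, cl_mul (pull_mem_Z2 hr hc) (pull_mem_Z2 hr (dd_coc _)),
    (cl_eq_zero (pull_mem_Z2 hr (dd_coc _))).2 (pull_mem_B2 hr _)]
  abel

variable (K G E) in
theorem a2_ex : ∃ q : (E →ₐ[K] SC K) × (Gm K → G),
    ∀ g x, q.1 (q.2 g • x) = g (q.1 x) := by
  have := IsGaloisGroup.isGalois G K E
  let j : E →ₐ[K] SC K := IsSepClosed.lift
  obtain ⟨r, hr⟩ := exists_pull (G := G) (G' := Gm K) (γ := RingHom.id K)
    (j := (j : E →+* SC K)) fun a => j.commutes a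
  exact ⟨(j, r), hr⟩

theorem a2_cls {j : E →+* SC K}
    (hj : ∀ a, j (algebraMap K E a) = algebraMap K _ a) {r : Gm K → G}
    (hr : ∀ g x, j (r g • x) = g (j x)) (hc : IsMulCocycle₂ c) :
    cls K c = cl K _ (pull j r c) := by
  have h := a2_ex K E G
  rw [cls, dif_pos h]
  exact a2_two (RingHom.id K) hj (fun a => h.choose.1.commutes a) hr h.choose_spec hc

end aux

variable [Finite G] [IsGaloisGroup G K E]

set_option linter.unusedSectionVars false

theorem res_cls_cl [IsSepClosure K' Ω'] (γ : K →+* K') {j : E →+* Ω'}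
    (hj : ∀ a, j (algebraMap K E a) = algebraMap K' Ω' (γ a)) {r : (Ω' ≃ₐ[K'] Ω') → G}
    (hr : ∀ g x, j (r g • x) = g (j x)) (hc : IsMulCocycle₂ c) :
    res γ (cls K c) = cl K' Ω' (pull j r c) := by
  have : FaithfulSMul G E := IsGaloisGroup.faithful K
  have := IsSepClosure.sep_closed K' (K := Ω')
  obtain ⟨⟨j₀, r₀⟩, h₀⟩ := a2_ex K E G
  obtain ⟨J, R, h⟩ := exists_lk (Ω := SC K) (Ω' := Ω') γ
  have h₁ : ∀ g x, (j₀ : E →+* SC K) (r₀ g • x) =
      g ((j₀ : E →+* SC K) x) := h₀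
  rw [a2_cls (j := (j₀ : E →+* SC K)) (fun a => j₀.commutes a) h₁ hc,
    h.res_cl (pull_mem_Z2 h₁ hc)]
  refine a2_two γ (j₂ := J.comp j₀) (r₂ := fun g => r₀ (R g)) hj (fun a => ?_) hr (fun g x => ?_) hc
  · exact (congrArg J (j₀.commutes a)).trans (h.base a)
  · exact (congrArg J (h₁ _ x)).trans (h.comm _ _)

theorem cls_eq_cl {j : E →+* SC K}
    (hj : ∀ a, j (algebraMap K E a) = algebraMap K _ a) {r : Gm K → G}
    (hr : ∀ g x, j (r g • x) = g (j x)) (hc : IsMulCocycle₂ c) :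
    cls K c = cl K _ (pull j r c) := a2_cls hj hr hc

/-- maps of pairs -/
theorem rs_cls [Finite G'] [IsGaloisGroup G' K' E'] (γ : K →+* K') {j : E →+* E'}
    (hj : ∀ a, j (algebraMap K E a) = algebraMap K' E' (γ a)) {r : G' → G}
    (hr : ∀ g x, j (r g • x) = g • j x) (hc : IsMulCocycle₂ c) :
    rs γ (cls K c) = cls K' (pull j r c) := by
  have : FaithfulSMul G E := IsGaloisGroup.faithful K
  obtain ⟨⟨j₀, r₀⟩, h₀⟩ := a2_ex K' E' G'
  have h₁ : ∀ g x, (j₀ : E' →+* SC K') (r₀ g • x) =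
      g ((j₀ : E' →+* SC K') x) := h₀
  rw [a2_cls (fun a => j₀.commutes a) h₁ (pull_coc hr hc)]
  refine res_cls_cl γ (j := (j₀ : E' →+* SC K').comp j) (r := fun g => r (r₀ g))
    (fun a => ?_) (fun g x => ?_) hc
  · exact (congrArg j₀ (hj a)).trans (j₀.commutes _)
  · exact (congrArg j₀ (hr _ x)).trans (h₁ _ _)

theorem cls_mul (hc : IsMulCocycle₂ c) (hc' : IsMulCocycle₂ c') :
    cls K (c * c') = cls K c + cls K c' := by
  have : FaithfulSMul G E := IsGaloisGroup.faithful K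
  have h := a2_ex K E G
  simp only [cls, dif_pos h]
  rw [pull_mul]
  exact cl_mul (pull_mem_Z2 h.choose_spec hc) (pull_mem_Z2 h.choose_spec hc')

theorem cls_dd (e : G → Eˣ) : cls K (dd e) = 0 := by
  have : FaithfulSMul G E := IsGaloisGroup.faithful K
  have h := a2_ex K E G
  rw [cls, dif_pos h]
  exact (cl_eq_zero (pull_mem_Z2 h.choose_spec (dd_coc e))).2 (pull_mem_B2 h.choose_spec e)

theorem cls_one : cls K (1 : G × G → Eˣ) = 0 := by rw [← dd_one, cls_dd]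

theorem cls_div (hc : IsMulCocycle₂ c) (hc' : IsMulCocycle₂ c') :
    cls K (c / c') = cls K c - cls K c' := by
  have h := cls_mul (K := K) (coc_div hc hc') hc'
  rw [div_mul_cancel] at h
  rw [h]
  abel

theorem cls_inv (hc : IsMulCocycle₂ c) : cls K c⁻¹ = -cls K c := by
  rw [← one_div, cls_div coc_one hc, cls_one]
  abel

theorem cls_pow (hc : IsMulCocycle₂ c) (n : ℕ) : cls K (c ^ n) = n • cls K c := by
  induction n with
  | zero => rw [pow_zero, cls_one]; exact (zero_nsmul (cls K c)).symm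
  | succ n ih => rw [pow_succ, cls_mul (coc_pow hc n) hc, ih]; exact (succ_nsmul (cls K c) n).symm

theorem cls_mul_dd (hc : IsMulCocycle₂ c) (e : G → Eˣ) : cls K (c * dd e) = cls K c := by
  rw [cls_mul hc (dd_coc e), cls_dd]
  abel

theorem card_smul_cls (hc : IsMulCocycle₂ c) : Nat.card G • cls K c = 0 := by
  obtain ⟨e, he⟩ := cobOn_top.1 (coc_iff.1 hc).cob_card
  rw [← Subgroup.card_top, ← cls_pow hc, he, cls_dd]

theorem rs_cls_self (hc : IsMulCocycle₂ c) : rs (algebraMap K E) (cls K c) = 0 := by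
  have : FaithfulSMul G E := IsGaloisGroup.faithful K
  have hr : ∀ (g : Gm E) (x : E), algebraMap E (SC E) ((fun _ => (1 : G)) g • x) =
      g (algebraMap E _ x) := fun g x => by rw [one_smul, g.commutes]
  rw [rs, res_cls_cl (algebraMap K E) (fun _ => rfl) hr hc, cl_eq_zero (pull_mem_Z2 hr hc)]
  have e : pull (algebraMap E (SC E)) (fun _ : Gm E => (1 : G)) c =
      pull (algebraMap E (SC E)) (fun _ => (1 : G)) (dd fun _ => c (1, 1)) :=
    funext fun p => by simp only [pull, dd, one_smul, div_self', one_mul]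
  rw [e]
  exact pull_mem_B2 hr _

theorem a2_desc {x : Gm K × Gm K → (SC K)ˣ} (hx : x ∈ Z2 K _)
    (s : Finset (SC K)) :
    ∃ (L : IntermediateField K (SC K)) (_ : FiniteDimensional K L) (_ : IsGalois K L)
      (x₀ : (L ≃ₐ[K] L) × (L ≃ₐ[K] L) → Lˣ), (∀ y ∈ s, y ∈ L) ∧ IsMulCocycle₂ x₀ ∧
        (∀ N : ℕ, x ^ N = 1 → x₀ ^ N = 1) ∧ cls K x₀ = cl K _ x := by
  obtain ⟨L, hf, hg, x₀, -, hs, rfl, -⟩ := exists_descent (e := 1) hx.2 ⟨∅, fun _ _ _ => rfl⟩ s
  have hr : ∀ (g : Gm K) (y : L), algebraMap L (SC K)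
      (AlgEquiv.restrictNormalHom L g • y) = g (algebraMap L _ y) :=
    fun g y => AlgEquiv.restrictNormalHom_apply L g y
  have hi : Function.Injective
      (Units.map (algebraMap L (SC K) : L →* SC K)) :=
    Units.map_injective (algebraMap L (SC K)).injective
  have hu := AlgEquiv.restrictNormalHom_surjective (F := K) (K₁ := L) (SC K)
  have hc : IsMulCocycle₂ x₀ := fun g h k => by
    obtain ⟨g, rfl⟩ := hu g
    obtain ⟨h, rfl⟩ := hu h
    obtain ⟨k, rfl⟩ := hu k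
    apply hi
    have := hx.1 g h k
    simp only [pull, map_mul] at this ⊢
    rw [this]
    congr 1
    exact (lk_units hr g _).symm
  refine ⟨L, hf, hg, x₀, hs, hc, fun N hN => funext fun p => ?_,
    a2_cls (K := K) (j := algebraMap L (SC K)) (fun _ => rfl) hr hc⟩
  obtain ⟨g, hg⟩ := hu p.1
  obtain ⟨h, hh⟩ := hu p.2
  have := congrFun hN (g, h)
  simp only [pull, Pi.pow_apply, Pi.one_apply, hg, hh, ← map_pow] at this
  exact hi (this.trans (map_one _).symm)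

theorem exists_cls (a : BR K) (s : Finset (SC K)) :
    ∃ (L : IntermediateField K (SC K)) (_ : FiniteDimensional K L) (_ : IsGalois K L)
      (x : (L ≃ₐ[K] L) × (L ≃ₐ[K] L) → Lˣ), (∀ y ∈ s, y ∈ L) ∧ IsMulCocycle₂ x ∧ cls K x = a := by
  obtain ⟨x, hx, rfl⟩ := exists_cl a
  obtain ⟨L, hf, hg, x₀, h1, h2, -, h3⟩ := a2_desc hx s
  exact ⟨L, hf, hg, x₀, h1, h2, h3⟩

theorem exists_torsion (a : BR K) : ∃ N : ℕ, 0 < N ∧ N • a = 0 := by
  obtain ⟨L, hf, hg, x, -, h, rfl⟩ := exists_cls a ∅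
  exact ⟨Nat.card (L ≃ₐ[K] L), Nat.card_pos, card_smul_cls h⟩

theorem exists_dies (a : BR K) : ∃ (L : IntermediateField K (SC K))
    (_ : FiniteDimensional K L) (_ : IsGalois K L), rs (algebraMap K L) a = 0 := by
  obtain ⟨L, hf, hg, x, -, h, rfl⟩ := exists_cls a ∅
  exact ⟨L, hf, hg, rs_cls_self h⟩

theorem exists_kummer {a : BR K} {N : ℕ} (hN : (N : K) ≠ 0) (h : N • a = 0)
    (s : Finset (SC K)) :
    ∃ (L : IntermediateField K (SC K)) (_ : FiniteDimensional K L) (_ : IsGalois K L)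
      (x : (L ≃ₐ[K] L) × (L ≃ₐ[K] L) → Lˣ), (∀ y ∈ s, y ∈ L) ∧ IsMulCocycle₂ x ∧ x ^ N = 1 ∧
        cls K x = a := by
  obtain ⟨x, hx, rfl⟩ := exists_cl a
  rw [← cl_pow hx, cl_eq_zero (pow_mem hx N), mem_B2] at h
  obtain ⟨e, he, h⟩ := h
  have hρ : ∀ u : (SC K)ˣ, ∃ v : (SC K)ˣ, v ^ N = u⁻¹ := fun u => by
    have : NeZero (N : SC K) := ⟨by
      rw [← map_natCast (algebraMap K (SC K))]
      exact (map_ne_zero _).2 hN⟩
    obtain ⟨v, hv⟩ := IsSepClosed.exists_pow_nat_eq ((u⁻¹ : (SC K)ˣ) : SC K) N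
    refine ⟨Units.mk0 v fun h0 => (u⁻¹).ne_zero ?_, Units.ext hv⟩
    rw [← hv, h0, zero_pow fun e => hN (by rw [e, Nat.cast_zero])]
  choose ρ hρ using hρ
  obtain ⟨h1, h2⟩ := cl_mul_dd hx (he.comp ρ)
  obtain ⟨L, hf, hg, x₀, h3, h4, h5, h6⟩ := a2_desc h1 s
  refine ⟨L, hf, hg, x₀, h3, h4, h5 N ?_, h6.trans h2⟩
  have : (ρ ∘ e) ^ N = e⁻¹ := funext fun g => hρ (e g)
  rw [mul_pow, h, ← dd_pow, this, ← dd_mul, mul_inv_cancel, dd_one]

end Pool.Agent.ZCy.F
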