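import Pool.Agent.Lib.MP_751085_ag.ZC.Defs

/-! Brauer groups, zero-cycles and the statement (ZC) over all global fields. -/

namespace Pool.Agent.ZCy

open scoped Classical IntermediateField
open NumberField

section brauer

variable (K Ω : Type) [Field K] [Field Ω] [Algebra K Ω]

/-- the nonzero elements of `Ω` that are separable over `K` -/
def sepU : Subgroup Ωˣ where
  carrier := {u | (u : Ω) ∈ separableClosure K Ω}
  one_mem' := one_mem (separableClosure K Ω)
  mul_mem' := fun {a b} ha hb => (separableClosure K Ω).mul_mem (x := a) (y := b) ha hb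
  inv_mem' := fun {u} ha => by
    change ((u⁻¹ : Ωˣ) : Ω) ∈ separableClosure K Ω
    rw [Units.val_inv_eq_inv_val]
    exact (separableClosure K Ω).inv_mem ha

/-- continuous 2-cocycles of `Aut(Ω/K)` with separable values -/
def Zs : Subgroup ((Ω ≃ₐ[K] Ω) × (Ω ≃ₐ[K] Ω) → Ωˣ) := Z2 K Ω ⊓ Subgroup.pi Set.univ fun _ => sepU K Ω

/-- coboundaries of continuous 1-cochains with separable values -/
def Bs : Subgroup ((Ω ≃ₐ[K] Ω) × (Ω ≃ₐ[K] Ω) → Ωˣ) where
  carrier := {c | ∃ e : (Ω ≃ₐ[K] Ω) → Ωˣ, LocConst K Ω 1 (fun g => e (g 0)) ∧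
    (∀ g, e g ∈ sepU K Ω) ∧ ∀ g h, c (g, h) = g • e h / e (g * h) * e g}
  one_mem' := ⟨1, ⟨∅, fun _ _ _ => rfl⟩, fun _ => one_mem _, fun g h => by simp⟩
  mul_mem' := by
    rintro a b ⟨e, ⟨s, hs⟩, se, he⟩ ⟨f, ⟨t, ht⟩, sf, hf⟩
    refine ⟨e * f, ⟨s ∪ t, fun g h u => ?_⟩, fun g => mul_mem (se g) (sf g), fun g h => ?_⟩
    · have h1 := hs g h fun i x hx => u i x (Finset.mem_union_left _ hx)
      have h2 := ht g h fun i x hx => u i x (Finset.mem_union_right _ hx)
      simp only [Pi.mul_apply] at h1 h2 ⊢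
      rw [h1, h2]
    · simp only [Pi.mul_apply, he, hf, smul_mul', div_eq_mul_inv, mul_inv]
      ac_rfl
  inv_mem' := by
    rintro a ⟨e, ⟨s, hs⟩, se, he⟩
    refine ⟨e⁻¹, ⟨s, fun g h u => ?_⟩, fun g => inv_mem (se g), fun g h => ?_⟩
    · have h1 := hs g h u
      simp only [Pi.inv_apply] at h1 ⊢
      rw [h1]
    · simp only [Pi.inv_apply, he, smul_inv', div_eq_mul_inv, mul_inv]

/-- `H²(Gal(K_s/K), K_sˣ)`, the Brauer group of `K`, when `Ω` is an algebraic closure of `K` and
`K_s` the separable closure of `K` in `Ω`; restriction `Aut(Ω/K) → Gal(K_s/K)` is bijective -/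
abbrev Brs : Type := Additive (Zs K Ω ⧸ (Bs K Ω).subgroupOf (Zs K Ω))

/-- the group structure of the quotient -/
@[reducible] noncomputable def bsGroup : AddCommGroup (Brs K Ω) := inferInstance

/-- the underlying structures -/
@[reducible] noncomputable def bsMonoid : AddCommMonoid (Brs K Ω) := (bsGroup K Ω).toAddCommMonoid
@[reducible] noncomputable def bsAddZero : AddZero (Brs K Ω) :=
  (bsMonoid K Ω).toAddMonoid.toAddZeroClass.toAddZero
@[reducible] noncomputable def bsZero : Zero (Brs K Ω) := (bsAddZero K Ω).toZero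
@[reducible] noncomputable def bsSMul : SMul ℤ (Brs K Ω) := ⟨(bsGroup K Ω).zsmul⟩

attribute [local instance] bsGroup bsMonoid bsAddZero bsZero bsSMul

/-- the class of a function: its cohomology class if it is a cocycle -/
noncomputable def clS (c : (Ω ≃ₐ[K] Ω) × (Ω ≃ₐ[K] Ω) → Ωˣ) : Brs K Ω :=
  if h : c ∈ Zs K Ω then qMk (Zs K Ω) (Bs K Ω) ⟨c, h⟩ else 0

variable {K Ω}

/-- corestriction: the norm; the inseparable part of the norm is a power -/
noncomputable def coresS (M : IntermediateField K Ω) (β : Brs M Ω) : Brs K Ω :=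
  clS K Ω fun p => (∏ᶠ y : (Ω ≃ₐ[K] Ω) ⧸ M.fixingSubgroup, ((p.1 * p.2) • y).out •
    (qOut (Zs M Ω) (Bs M Ω) β).1 (rho M p.1 (p.2 • y), rho M p.2 y)) ^ Field.finInsepDegree K M

/-- `β` is the class of the image of the cochain `c` under `φ` -/
def Img {G A : Type} [Group G] [CommRing A] [MulSemiringAction G A] (c : G × G → Aˣ)
    (φ : A →+* Ω) (β : Brs K Ω) : Prop :=
  ∃ r : (Ω ≃ₐ[K] Ω) → G, (∀ σ y, φ (r σ • y) = σ (φ y)) ∧
    β = clS K Ω fun p => Units.map φ (c (r p.1, r p.2))

end brauer

attribute [local instance] bsGroup bsMonoid bsAddZero bsZero bsSMul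

variable {k : Type} [Field k] (X : Var k)

/-- the rational function `f` is regular at the point `x` and has the value `m` there -/
def Var.Reg {M : Type} [Field M] [Algebra k M] (x : Fin (X.N + 1) → M) (f : X.F) (m : M) : Prop :=
  ∃ (d : ℕ) (G H : MvPolynomial (Fin (X.N + 1)) k), G.IsHomogeneous d ∧ H.IsHomogeneous d ∧
    MvPolynomial.aeval x H ≠ 0 ∧ f * MvPolynomial.aeval X.g H = MvPolynomial.aeval X.g G ∧
      m * MvPolynomial.aeval x H = MvPolynomial.aeval x G

/-- `α` comes from the Brauer group of the local ring `O` of `X` at `x` and has the value `β` at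
`x`: both are images of one cocycle with unit values of a Galois covering `A` of `O`, that is a
ring with an action of a finite group `G`, with ring of invariants `O` and trivial inertia -/
def Var.Val (α : Brs X.F (AlgebraicClosure X.F)) {M Ω : Type} [Field M] [Algebra k M] [Field Ω]
    [Algebra M Ω] (x : Fin (X.N + 1) → M) (β : Brs M Ω) : Prop :=
  ∃ (O G A : Type) (_ : CommRing O) (_ : Group G) (_ : Finite G) (_ : CommRing A)
    (_ : MulSemiringAction G A) (s : O →+* X.F) (i : O →+* A) (ι : A →+* AlgebraicClosure X.F)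
    (ρ : A →+* Ω) (c : G × G → Aˣ),
    Function.Injective s ∧ (∀ f, f ∈ s.range ↔ ∃ m, X.Reg x f m) ∧
    Function.Injective i ∧ (∀ y, y ∈ i.range ↔ ∀ g : G, g • y = y) ∧
    (∀ o, ι (i o) = algebraMap X.F _ (s o)) ∧
    (∀ o m, X.Reg x (s o) m → ρ (i o) = algebraMap M Ω m) ∧
    (∀ g : G, (∀ y, ρ (g • y) = ρ y) → g = 1) ∧
    (∀ g h j, (c (g * h, j) * c (g, h) : A) = g • (c (h, j) : A) * c (g, h * j)) ∧
    Img c ι α ∧ Img c ρ β

/-- the Brauer group of `X` inside the Brauer group of its function field -/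
def Var.BrX : Set (Brs X.F (AlgebraicClosure X.F)) :=
  {α | ∀ (M : Type) [Field M] [Algebra k M] (x : X.Pt M),
    ∃ β : Brs M (AlgebraicClosure M), X.Val α x.1 β}

section cycles

variable {X} {L : Type} [Field L] [Algebra k L]

/-- the value of `α` at a closed point -/
noncomputable def Var.evalS (α : Brs X.F (AlgebraicClosure X.F)) (x : X.Pt (AlgebraicClosure L)) :
    Brs (Var.res x) (AlgebraicClosure L) :=
  Classical.epsilon (X.Val α fun i => (⟨x.1 i, IntermediateField.subset_adjoin _ _ ⟨i, rfl⟩⟩ : Var.res x))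

/-- the pairing with the Brauer group -/
noncomputable def Var.pairS (z : X.Cyc L) (α : Brs X.F (AlgebraicClosure X.F)) :
    Brs L (AlgebraicClosure L) := z.sum fun x n => n • coresS (Var.res x) (Var.evalS α x)

end cycles

/-- number fields and finite extensions of `F(t)`, `F` a finite field -/
def IsGlobal (k : Type) [Field k] : Prop :=
  NumberField k ∨ ∃ (F : Type) (_ : Field F) (_ : Finite F) (_ : Algebra (RatFunc F) k),
    FiniteDimensional (RatFunc F) k

/-- the non-archimedean places: discrete valuation rings with fraction field `k` -/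
def Place (k : Type) [Field k] : Type := {O : ValuationSubring k // IsDiscreteValuationRing O}

instance (v : Place k) : IsDiscreteValuationRing v.1 := v.2

/-- the completion at a non-archimedean place -/
abbrev Place.K (v : Place k) : Type := (IsDiscreteValuationRing.maximalIdeal v.1).adicCompletion k

/-- the structures of the completion -/
@[reducible] noncomputable def Place.field (v : Place k) : Field v.K := inferInstance
@[reducible] noncomputable def Place.alg (v : Place k) : Algebra k v.K := inferInstance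

attribute [local instance] Place.field Place.alg

/-- local invariants: injective homomorphisms to `ℚ/ℤ` -/
structure Invs (k : Type) [Field k] where
  fin : ∀ v : Place k, Brs v.K (AlgebraicClosure v.K) →+ AddCircle (1 : ℚ)
  inf : ∀ w : InfinitePlace k, Brs w.Completion (AlgebraicClosure w.Completion) →+ AddCircle (1 : ℚ)
  fin_inj : ∀ v, Function.Injective (fin v)
  inf_inj : ∀ w, Function.Injective (inf w)

/-- the property (ZC) -/
def Var.ZCs (j : Invs k) : Prop :=
  (∃ (z : ∀ v : Place k, X.Cyc v.K) (z' : ∀ w : InfinitePlace k, X.Cyc w.Completion),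
      (∀ v, Var.deg (z v) = 1) ∧ (∀ w, Var.deg (z' w) = 1) ∧ ∀ α ∈ X.BrX,
        ∑ᶠ v, j.fin v (Var.pairS (z v) α) + ∑ᶠ w, j.inf w (Var.pairS (z' w) α) = 0) →
  ∃ z : X.Cyc k, Var.deg z = 1

end Pool.Agent.ZCy
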