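import Pool.Agent.Lib.MP_751085_ag.ZF.R3b
import Pool.Agent.Lib.MP_751085_ag.ZC.R8

/-! Cocycles in roots of unity and normalised splittings over the inertia group. -/

namespace Pool.Agent.ZCy.F

open scoped Classical WithZero
open groupCohomology

variable {K E : Type} [Field K] [Field E] [Algebra K E] [FiniteDimensional K E]
  [IsGalois K E] {v : Vl K} {w : Vl E} {c : (E ≃ₐ[K] E) × (E ≃ₐ[K] E) → Eˣ}

/-- apply `infl_of_norm` to `c / dd e` -/
theorem unram_of_norm (hw : Over (algebraMap K E) v w) (hc : IsMulCocycle₂ c) {m : ℕ}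
    (hm : w (m : E) = 1) (hp : ∀ p, c p ^ m = 1) {e : (E ≃ₐ[K] E) → Eˣ} (he : ∀ g, e g ^ m = 1)
    (hs : ∀ g ∈ Ine K w, ∀ h ∈ Ine K w, c (g, h) = dd e (g, h))
    (hn : ∀ g ∈ Dec K w, ∀ n ∈ Ine K w, ∀ n' ∈ Ine K w, g * n' = n * g →
      c (g, n') / g • e n' = c (n, g) / e n) : Unram v (cls K c) := by
  have h1 := coc_div hc (dd_coc e)
  have p1 : ∀ p, (c / dd e) p ^ m = 1 := fun p => by
    rw [Pi.div_apply, div_pow, hp, r8_dd he, div_one]
  obtain ⟨e', h2, h3⟩ := infl_of_norm ine_le_dec ine_conj (CocOn.of_coc h1 (Dec K w))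
    (fun i hi j hj => by rw [Pi.div_apply, hs i hi j hj, div_self']) fun g hg n hi n' hi' k => by
      have k1 : n • e g = e g := Units.ext (ine_kum hi (r8_val hm (he g)) hm (by
        rw [← Units.val_pow_eq_pow_val, he, Units.val_one, map_one]))
      have k2 := hn g hg n hi n' hi' k
      rw [div_eq_iff_eq_mul] at k2
      rw [Pi.div_apply, Pi.div_apply, dd_apply, dd_apply, k, k1, k2]
      apply Additive.ofMul.injective
      simp only [ofMul_mul, ofMul_div]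
      abel
  have := isRD_unit hw (coc_mul h1 (dd_coc e')) h3 fun g _ g' _ => r8_val hm (by
    rw [Pi.mul_apply, mul_pow, p1, one_mul]
    exact r8_dd (fun g => by obtain ⟨p, k⟩ := h2 g; rw [k, p1]) _)
  have k1 : cls K (c / dd e) = cls K c := by
    rw [div_eq_mul_inv, ← dd_inv]; exact cls_mul_dd hc _
  have k : cls K (c / dd e * dd e') = cls K (c / dd e) := cls_mul_dd h1 e'
  rwa [k, k1] at this

/-- the quotient of the two sides has the form `M • z / z` with `z` a unit above -/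
theorem Unram.norm (hw : Over (algebraMap K E) v w) (hc : IsMulCocycle₂ c) {m : ℕ}
    (hm : w (m : E) = 1) (hp : ∀ p, c p ^ m = 1) (hu : Unram v (cls K c))
    {I : Subgroup (E ≃ₐ[K] E)} (hI : I ≤ Ine K w) {e : (E ≃ₐ[K] E) → Eˣ} (he : ∀ g, e g ^ m = 1)
    (hs : ∀ g ∈ I, ∀ h ∈ I, c (g, h) = dd e (g, h)) {g n n' : E ≃ₐ[K] E} (hg : g ∈ Dec K w)
    (hn : n ∈ I) (hn' : n' ∈ I) (hgn : g * n' = n * g) :
    c (g, n') / g • e n' = c (n, g) / e n := by
  obtain ⟨R, j, hR, hj⟩ := hu.up hw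
  obtain ⟨r, hr⟩ := exists_pull (G := E ≃ₐ[K] E) (G' := R.E ≃ₐ[K] R.E) (γ := RingHom.id K)
    (j := (j : E →+* R.E)) j.commutes
  have hm' : R.w (m : R.E) = 1 := by simpa using (hj.eq_one m).2 hm
  obtain ⟨b, hb⟩ := (cls_eq_iff (K := K) (pull_coc hr hc) R.coc).1 (by
    rw [← rs_cls (RingHom.id K) (j := (j : E →+* R.E)) j.commutes hr hc, R.cls_eq]; exact res_id _)
  have b1 : ∀ G ∈ Dec K R.w, R.w (b G : R.E) = 1 := fun G hG => by
    refine (ord_eq_zero (b G).ne_zero).1 ?_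
    refine Int.cast_eq_zero.1 (hom_rat_zero (l := fun G => (ord R.w (b G : R.E) : ℚ))
      (fun G hG H hH => ?_) hG)
    have k : R.w (pull (j : E →+* R.E) r c (G, H) : R.Eˣ) = 1 :=
      r8_val hm' (by rw [pull, ← map_pow, hp, map_one])
    rw [hb, Pi.mul_apply, Units.val_mul, map_mul, hR G hG H hH, one_mul,
      ← ord_eq_zero (Units.ne_zero _)] at k
    exact_mod_cast (sub_eq_zero.1 ((ord_dd hG H).symm.trans k)).symm
  obtain ⟨G, hG, rfl⟩ := (vn_up j hr hj).1 g hg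
  obtain ⟨M, hM, rfl⟩ := (vn_up j hr hj).2 n (hI hn)
  let ρ := MonoidHom.mk' r (lk_mul hr)
  have hM' : G⁻¹ * M * G ∈ Ine K R.w := by simpa using ine_conj _ (inv_mem hG) M hM
  obtain rfl : r (G⁻¹ * M * G) = n' := by
    change ρ _ = _
    rw [map_mul, map_mul, map_inv, mul_assoc, inv_mul_eq_iff_eq_mul]
    exact hgn.symm
  have d1 := one_mem (Dec K R.w)
  have n1 := one_mem (Ine K R.w)
  have cD := CocOn.of_coc R.coc (Dec K R.w)
  obtain ⟨J, hJ⟩ : ∃ J, J = Units.map ((j : E →+* R.E) : E →* R.E) := ⟨_, rfl⟩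
  have hb' : ∀ G H, J (c (r G, r H)) = R.c (G, H) * dd b (G, H) := fun G H => by
    rw [hJ]; exact congrFun hb (G, H)
  have hs' : ∀ G u, J (r G • u) = G • J u := fun G u => by rw [hJ]; exact lk_units hr G u
  obtain ⟨f, hf⟩ : ∃ f : (R.E ≃ₐ[K] R.E) → R.Eˣ, ∀ i, f i = R.c (1, 1) * b i / J (e (r i)) :=
    ⟨_, fun _ => rfl⟩
  have f1 : ∀ i ∈ Ine K R.w ⊓ I.comap ρ, ∀ i' ∈ Ine K R.w ⊓ I.comap ρ,
      f (i * i') = i • f i' * f i := fun i hi i' hi' => by
    have k := hb' i i'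
    have k1 := R.infl.eq 1 d1 1 d1 i hi.1 i' hi'.1
    rw [one_mul, one_mul] at k1
    rw [hs (r i) hi.2 (r i') hi'.2, dd_apply, dd_apply, map_mul, map_div, k1, ← lk_mul hr, hs',
      div_mul_eq_mul_div, div_eq_iff_eq_mul, mul_comm (_ * _), ← div_eq_iff_eq_mul] at k
    rw [hf, hf, hf, smul_div', smul_mul', R.infl.fix 1 d1 1 d1 i hi.1, ← k]
    apply Additive.ofMul.injective
    simp only [ofMul_mul, ofMul_div]
    abel
  obtain ⟨x, hx⟩ : ∃ x : R.Eˣ, ∀ i ∈ Ine K R.w ⊓ I.comap ρ, f i = i • x / x := h90 _ f f1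
  have key : J (c (r G, r (G⁻¹ * M * G)) / r G • e (r (G⁻¹ * M * G)) / (c (r M, r G) / e (r M))) =
      M • (G • x / x / b G) / (G • x / x / b G) := by
    have k1 := R.infl.eq G hG 1 d1 1 n1 _ hM'
    have k2 := R.infl.eq 1 d1 G hG M hM 1 n1
    have k3 := congrArg (G • ·) (hx _ ⟨hM', hn'⟩)
    have k4 := hx _ ⟨hM, hn⟩
    have k5 : G * (G⁻¹ * M * G) = M * G := by group
    rw [mul_one, one_mul, cD.one_right hG] at k1
    rw [mul_one, one_mul, cD.one_left hG] at k2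
    simp only [hf, smul_div', smul_mul', ← mul_smul, k5, div_eq_iff_eq_mul] at k3 k4
    rw [mul_comm (_ / _), ← div_eq_iff_eq_mul] at k3 k4
    simp only [map_div, hb', hs', k1, k2, dd_apply, k5, ← k3, ← k4, smul_div', ← mul_smul]
    apply Additive.ofMul.injective
    simp only [ofMul_mul, ofMul_div]
    abel
  rw [← div_eq_one]
  refine a2b_map_inj (j : E →+* R.E) ?_
  rw [← hJ, map_one]
  refine Units.ext (mu_eq_one hm' ?_ ?_)
  · rw [← Units.val_pow_eq_pow_val, ← map_pow]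
    simp only [div_pow, hp, he, ← smul_pow', smul_one, div_one, map_one, Units.val_one]
  · rw [key, Units.val_div_eq_div_val]
    refine ine_unit hM ?_
    have k : R.w ((G • x : R.Eˣ) : R.E) = R.w x := hG x
    simp only [Units.val_div_eq_div_val, map_div₀, k, b1 G hG, div_one]
    exact div_self (by simp)

end Pool.Agent.ZCy.F
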