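import Pool.Agent.Lib.MP_751085_ag.ZC.R0b
import Pool.Agent.Lib.MP_751085_ag.ZF.RDefs

/-! Composita with valuations and residue maps in any characteristic. -/

namespace Pool.Agent.ZCy.F

open scoped Classical WithZero

variable {K K' E Ω : Type} [Field K] [Field K'] [Field E] [Field Ω] [Algebra K E]

/-- a finite Galois extension of `K'` that contains `E` and splits given separable polynomials -/
theorem exists_big [FiniteDimensional K E] [Algebra.IsSeparable K E] (φ : K →+* K')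
    (s : Finset (Polynomial E)) (hs : ∀ p ∈ s, p.Separable) :
    ∃ (E' : Type) (_ : Field E') (_ : Algebra K' E') (_ : FiniteDimensional K' E')
      (_ : IsGalois K' E') (j : E →+* E'), (∀ a, j (algebraMap K E a) = algebraMap K' E' (φ a)) ∧
      ∀ p ∈ s, (p.map j).Splits := by
  let _ : Algebra K (SC K') := ((algebraMap K' _).comp φ).toAlgebra
  let j₀ : E →ₐ[K] SC K' := IsSepClosed.lift
  let b := Module.finBasis K E
  let S : Finset (SC K') := Finset.univ.image (fun i => j₀ (b i)) ∪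
    s.biUnion fun p => (p.map (j₀ : E →+* SC K')).roots.toFinset
  let F := FiniteGaloisIntermediateField.adjoin K' (S : Set (SC K'))
  have hS : ∀ x ∈ S, x ∈ F.toIntermediateField := fun x hx =>
    FiniteGaloisIntermediateField.subset_adjoin K' _ hx
  have hj : ∀ x, (j₀ : E →+* SC K') x ∈ F.toIntermediateField := fun x => by
    rw [← b.sum_repr x, map_sum]
    refine sum_mem fun i _ => ?_
    rw [Algebra.smul_def, map_mul]
    refine mul_mem ?_ (hS _ (Finset.mem_union_left _ (Finset.mem_image_of_mem _ (Finset.mem_univ i))))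
    exact (j₀.commutes _).symm ▸ F.toIntermediateField.algebraMap_mem (φ _)
  refine ⟨F.toIntermediateField, inferInstance, inferInstance, inferInstance, inferInstance,
    (j₀ : E →+* SC K').codRestrict F.toIntermediateField hj,
    fun a => Subtype.ext (j₀.commutes a), fun p hp => ?_⟩
  refine Polynomial.Splits.of_splits_map (algebraMap F.toIntermediateField (SC K'))
    (IsSepClosed.splits_of_separable _ ((hs p hp).map.map)) fun a ha => ?_
  rw [Polynomial.map_map] at ha
  exact ⟨⟨a, hS a (Finset.mem_union_right _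
    (Finset.mem_biUnion.2 ⟨p, hp, Multiset.mem_toFinset.2 ha⟩))⟩, rfl⟩

theorem exists_big0 [FiniteDimensional K E] [Algebra.IsSeparable K E] (φ : K →+* K') :
    ∃ (E' : Type) (_ : Field E') (_ : Algebra K' E') (_ : FiniteDimensional K' E')
      (_ : IsGalois K' E') (j : E →+* E'), ∀ a, j (algebraMap K E a) = algebraMap K' E' (φ a) := by
  obtain ⟨E', _, _, _, _, j, hj, -⟩ := exists_big (E := E) φ ∅ (by simp)
  exact ⟨E', _, _, ‹_›, ‹_›, j, hj⟩

theorem exists_above [FiniteDimensional K E] [IsGalois K E] (φ : K →+* K') {v : Vl K}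
    {v' : Vl K'} (h : Over φ v v') {w : Vl E} (hw : Over (algebraMap K E) v w) :
    ∃ (E' : Type) (_ : Field E') (_ : Algebra K' E') (_ : FiniteDimensional K' E')
      (_ : IsGalois K' E') (j : E →+* E') (w' : Vl E'),
      (∀ a, j (algebraMap K E a) = algebraMap K' E' (φ a)) ∧ Over j w w' ∧
      Over (algebraMap K' E') v' w' := by
  obtain ⟨E', _, _, _, _, j, hj⟩ := exists_big0 (E := E) φ
  obtain ⟨w', hw'⟩ := vn_exists (E := E') v'
  have h1 : Over (algebraMap K E) v (w'.comap j) := fun a => by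
    rw [Valuation.comap_apply, hj]
    exact (hw' _).trans (h a)
  obtain ⟨g, hg⟩ := vn_conj h1 hw
  refine ⟨E', inferInstance, inferInstance, inferInstance, inferInstance, j.comp (g : E →+* E), w',
    fun a => ?_, fun x => (hg x).symm, hw'⟩
  rw [← hj]
  exact congrArg j (g.commutes a)

/-- the same above a given finite separable extension `E₁` of `K'`, with residue maps -/
theorem exists_above_red [IsAlgClosed Ω] [FiniteDimensional K E] [IsGalois K E]
    (φ : K →+* K') {E₁ : Type} [Field E₁] [Algebra K' E₁] [FiniteDimensional K' E₁]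
    [Algebra.IsSeparable K' E₁] {w : Vl E}
    {w₁ : Vl E₁} {ρ : w.integer →+* Ω} {ρ₁ : w₁.integer →+* Ω} (hρ : IsRed w ρ) (hρ₁ : IsRed w₁ ρ₁)
    (h : ∀ a : K, w₁ (algebraMap K' E₁ (φ a)) ≤ 1 ↔ w (algebraMap K E a) ≤ 1)
    (hc : ∀ (a : K) (y : w.integer) (y₁ : w₁.integer), (y : E) = algebraMap K E a →
      (y₁ : E₁) = algebraMap K' E₁ (φ a) → ρ₁ y₁ = ρ y) :
    ∃ (E' : Type) (_ : Field E') (_ : Algebra K' E') (_ : FiniteDimensional K' E')
      (_ : IsGalois K' E') (j : E →+* E') (j₁ : E₁ →ₐ[K'] E') (w' : Vl E') (ρ' : w'.integer →+* Ω),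
      (∀ a, j (algebraMap K E a) = algebraMap K' E' (φ a)) ∧ Over j w w' ∧
      Over (j₁ : E₁ →+* E') w₁ w' ∧ IsRed w' ρ' ∧ Cmp j ρ ρ' id ∧ Cmp j₁ ρ₁ ρ' id := by
  obtain ⟨F, _, _, _, _, i, u, hi, hu, hu₁⟩ := exists_above ((algebraMap K' E₁).comp φ)
    (v := w.comap (algebraMap K E)) (v' := w₁) h (over_comap _ w)
  let _ : Algebra K' F := ((algebraMap E₁ F).comp (algebraMap K' E₁)).toAlgebra
  have : IsScalarTower K' E₁ F := .of_algebraMap_eq fun _ => rfl
  have : FiniteDimensional K' F := Module.Finite.trans E₁ F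
  have : Algebra.IsSeparable K' F := Algebra.IsSeparable.trans K' E₁ F
  obtain ⟨E', _, _, _, _, i', hi'⟩ := exists_big0 (E := F) (RingHom.id K')
  obtain ⟨w', hw'⟩ := r0b_ext i' hi' u
  let j₁ : E₁ →ₐ[K'] E' := { i'.comp (algebraMap E₁ F) with commutes' := hi' }
  have o₁ : Over (j₁ : E₁ →+* E') w₁ w' := hu₁.comp hw'
  have o : Over (i'.comp i) w w' := hu.comp hw'
  obtain ⟨ρ', hρ', c₁⟩ : ∃ ρ' : w'.integer →+* Ω, IsRed w' ρ' ∧ Cmp j₁ ρ₁ ρ' id := by
    let _ := (j₁ : E₁ →+* E').toAlgebra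
    have := (r0b_tower (j₁ : E₁ →+* E') j₁.commutes).2
    exact vn_redext o₁ hρ₁
  obtain ⟨ρ₂, hρ₂, c₂⟩ := o.red hρ'
  obtain ⟨d, hd, c⟩ := vn_red (K := K) hρ₂ hρ fun a y hy => by
    have h1 : w₁ (algebraMap K' E₁ (φ a)) ≤ 1 := (h a).2 (hy ▸ y.2)
    have h2 := c₁ ⟨_, h1⟩ ⟨_, (o₁ _).2 h1⟩ rfl
    have h3 := c₂ y ⟨_, (o₁ _).2 h1⟩ (by
      rw [hy]
      exact congrArg i' (hi a).symm)
    exact h3.symm.trans (h2.trans (hc a y ⟨_, h1⟩ hy rfl))
  refine ⟨E', inferInstance, inferInstance, inferInstance, inferInstance,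
    (i'.comp i).comp (d : E →+* E), j₁, w', ρ', fun a => ?_, fun x => ?_, o₁, hρ',
    c.comp c₂ fun x hx => (hd x).trans_le hx, c₁⟩
  · exact (congrArg (i'.comp i) (d.commutes a)).trans ((congrArg i' (hi a)).trans (hi' (φ a)))
  · exact (o (d x)).trans (by rw [hd x])

theorem r0f_uniq [FiniteDimensional K E] [Algebra.IsSeparable K E] {v : Vl K} {w w' : Vl E}
    (h : Hens v) (hw : Over (algebraMap K E) v w) (hw' : Over (algebraMap K E) v w') (x : E) :
    w' x ≤ 1 ↔ w x ≤ 1 := by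
  obtain ⟨E', _, _, _, _, j, hj⟩ := exists_big0 (E := E) (RingHom.id K)
  obtain ⟨u, hu⟩ := r0b_ext j hj w
  obtain ⟨u', hu'⟩ := r0b_ext j hj w'
  obtain ⟨g, hg⟩ := vn_conj (r0b_over hj hw hu) (r0b_over hj hw' hu')
  have h1 : g ∈ Dec K u := by rw [h E' u (r0b_over hj hw hu)]; trivial
  rw [← hu' x, hg, h1]
  exact hu x

/-- a power of an algebraic element is separable -/
theorem r0f_pow [Algebra.IsAlgebraic K E] (x : E) :
    ∃ n : ℕ, n ≠ 0 ∧ x ^ n ∈ separableClosure K E := by
  obtain ⟨q, hq⟩ := ExpChar.exists (separableClosure K E)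
  obtain ⟨n, y, hy⟩ := IsPurelyInseparable.pow_mem (separableClosure K E) q x
  exact ⟨q ^ n, (expChar_pow_pos (separableClosure K E) q n).ne', hy ▸ y.2⟩

/-- the prolongation to any finite extension is unique -/
theorem _root_.Pool.Agent.ZCy.Hens.uniqF [FiniteDimensional K E] {v : Vl K} {w w' : Vl E}
    (h : Hens v) (hw : Over (algebraMap K E) v w) (hw' : Over (algebraMap K E) v w') (x : E) :
    w' x ≤ 1 ↔ w x ≤ 1 := by
  obtain ⟨n, hn, hx⟩ := r0f_pow (K := K) x
  have h1 := r0f_uniq (E := separableClosure K E) h (w := w.comap (algebraMap _ E))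
    (w' := w'.comap (algebraMap _ E)) hw hw' ⟨_, hx⟩
  change w' (x ^ n) ≤ 1 ↔ w (x ^ n) ≤ 1 at h1
  rwa [map_pow, map_pow, pow_le_one_iff_of_nonneg zero_le hn,
    pow_le_one_iff_of_nonneg zero_le hn] at h1

theorem _root_.Pool.Agent.ZCy.Hens.extF [FiniteDimensional K E] {v : Vl K} {w : Vl E} (h : Hens v)
    (hw : Over (algebraMap K E) v w) : Hens w := by
  intro F _ _ _ _ u hu
  let _ : Algebra K F := ((algebraMap E F).comp (algebraMap K E)).toAlgebra
  have : IsScalarTower K E F := .of_algebraMap_eq fun _ => rfl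
  have : FiniteDimensional K F := Module.Finite.trans E F
  refine eq_top_iff.2 fun g _ => vn_dec fun x => ?_
  exact h.uniqF (w := u) (w' := u.comap (g : F →+* F)) (hw.comp hu) (fun a => by
    rw [Valuation.comap_apply]
    exact (congrArg (fun y => u y ≤ 1) (g.commutes (algebraMap K E a))).to_iff.trans
      ((hw.comp hu) a)) x

end Pool.Agent.ZCy.F
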