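import Pool.Agent.Lib.MP_751085_ag.ZF.R0b
import Pool.Agent.Lib.MP_751085_ag.ZC.R1
import Pool.Agent.Lib.MP_751085_ag.ZF.A2b

/-! Residue data on a fixed extension. -/

namespace Pool.Agent.ZCy.F

open scoped Classical WithZero
open groupCohomology

variable {K K' E E' : Type} [Field K] [Field K'] [Field E] [Field E'] [Algebra K E] [Algebra K' E']

/-- residue data on the valued extension `(E, w)` -/
structure IsRD (v : Vl K) (a : BR K) (w : Vl E) (e : ℚ) (c : (E ≃ₐ[K] E) × (E ≃ₐ[K] E) → Eˣ)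
    (lam : (E ≃ₐ[K] E) → ℚ) : Prop where
  e_pos : 0 < e
  idq : Idq (algebraMap K E) v w e
  coc : IsMulCocycle₂ c
  cls_eq : cls K c = a
  infl : Infl (Dec K w) (Ine K w) c
  ord_eq : ∀ g ∈ Dec K w, ∀ h ∈ Dec K w,
    (ord w (c (g, h) : E) : ℚ) = e * (lam g + lam h - lam (g * h))

variable {v : Vl K} {a a' : BR K}

theorem RD.isRD (R : RD v a) : IsRD v a R.w R.e R.c R.lam :=
  ⟨R.e_pos, R.idq, R.coc, R.cls_eq, R.infl, R.ord_eq⟩

variable [FiniteDimensional K E] [IsGalois K E] {w : Vl E} {e e' : ℚ}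
  {c c' : (E ≃ₐ[K] E) × (E ≃ₐ[K] E) → Eˣ} {lam lam' : (E ≃ₐ[K] E) → ℚ}

/-- the bundled form -/
@[reducible] def IsRD.rd (h : IsRD v a w e c lam) : RD v a :=
  { E := E, w := w, e := e, c := c, lam := lam, e_pos := h.e_pos, idq := h.idq, coc := h.coc,
    cls_eq := h.cls_eq, infl := h.infl, ord_eq := h.ord_eq }

theorem IsRD.int (h : IsRD v a w e c lam) : ∀ g ∈ Dec K w, ∀ g' ∈ Dec K w,
    ∃ z : ℤ, lam g + lam g' - lam (g * g') = z := fun g hg g' hg' => by
  obtain ⟨z, hz⟩ := ord_of_fix h.idq (h.infl.fix g hg g' hg')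
  exact ⟨z, mul_left_cancel₀ h.e_pos.ne' ((h.ord_eq g hg g' hg').symm.trans hz)⟩

theorem IsRD.lam_ine (h : IsRD v a w e c lam) : ∀ g ∈ Dec K w, ∀ i ∈ Ine K w, lam (g * i) = lam g := by
  have h1 : ∀ g ∈ Dec K w, ∀ i ∈ Ine K w, lam (g * i) = lam g + lam i - lam 1 := fun g hg i hi => by
    have u := h.infl.eq g hg 1 (one_mem _) 1 (one_mem _) i hi
    rw [mul_one, one_mul] at u
    have u1 := h.ord_eq g hg i (ine_le_dec hi)
    rw [u, h.ord_eq g hg 1 (one_mem _), mul_one] at u1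
    have := mul_left_cancel₀ h.e_pos.ne' u1
    linarith
  intro g hg i hi
  have h2 : lam i - lam 1 = 0 := hom_rat_zero (D := Ine K w) (l := fun x => lam x - lam 1)
    (fun x hx y hy => by rw [h1 x (ine_le_dec hx) y hy]; ring) hi
  rw [h1 g hg i hi]
  linarith

theorem IsRD.lam_mul (h : IsRD v a w e c lam) : ∀ g ∈ Dec K w, ∀ g' ∈ Dec K w,
    ((lam (g * g') : ℚ) : AddCircle (1 : ℚ)) = (lam g : ℚ) + (lam g' : ℚ) := fun g hg g' hg' => by
  obtain ⟨z, hz⟩ := h.int g hg g' hg'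
  have : lam (g * g') = lam g + lam g' - z := by linarith
  rw [this, AddCircle.coe_sub, AddCircle.coe_add, r1_coe_int, sub_zero]

theorem IsRD.lam_zero (h : IsRD v a w e c lam) : ∀ g ∈ Ine K w,
    ((lam g : ℚ) : AddCircle (1 : ℚ)) = 0 := fun g hg => by
  have u := h.lam_ine 1 (one_mem _) g hg
  have u1 := h.lam_mul 1 (one_mem _) 1 (one_mem _)
  rw [one_mul] at u u1
  rw [u]
  exact left_eq_add.1 u1

theorem IsRD.lam_pow (h : IsRD v a w e c lam) : ∀ g ∈ Dec K w, ∀ n : ℕ,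
    ((lam (g ^ n) : ℚ) : AddCircle (1 : ℚ)) = n • ((lam g : ℚ) : AddCircle (1 : ℚ)) := by
  intro g hg n
  induction n with
  | zero => rw [pow_zero, zero_nsmul]; exact h.lam_zero 1 (one_mem _)
  | succ n ih => rw [pow_succ, h.lam_mul _ (pow_mem hg n) g hg, ih, succ_nsmul]

theorem IsRD.lam_unit (h : IsRD v a w e c lam)
    (hu : ∀ g ∈ Dec K w, ∀ g' ∈ Dec K w, w (c (g, g') : E) = 1) : ∀ g ∈ Dec K w, lam g = 0 :=
  fun _ hg => hom_rat_zero (D := Dec K w) (fun x hx y hy => by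
    have u := h.ord_eq x hx y hy
    rw [(ord_eq_zero (c (x, y)).ne_zero).2 (hu x hx y hy), Int.cast_zero, eq_comm, mul_eq_zero] at u
    have := u.resolve_left h.e_pos.ne'
    linarith) hg

theorem r1_triv (h : IsRD v a w e c lam) :
    (∃ x, x ≠ 0 ∧ (ord v x : ℚ) ≠ 0) ∨ ∀ g ∈ Dec K w, lam g = 0 := by
  refine or_iff_not_imp_left.2 fun hn => h.lam_unit fun g _ g' _ => ?_
  refine Triv.algebraic (K := K) (fun x hx => ?_) (Algebra.IsAlgebraic.isAlgebraic _)
    (c (g, g')).ne_zero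
  have u := h.idq x hx
  rw [show (ord v x : ℚ) = 0 from by_contra fun h0 => hn ⟨x, hx, h0⟩, mul_zero,
    Int.cast_eq_zero] at u
  exact (ord_eq_zero ((map_ne_zero _).2 hx)).1 u

theorem IsRD.of_idq (h : IsRD v a w e c lam) (he : 0 < e') (hi : Idq (algebraMap K E) v w e') :
    IsRD v a w e' c lam := by
  refine ⟨he, hi, h.coc, h.cls_eq, h.infl, fun g hg g' hg' => ?_⟩
  rw [h.ord_eq g hg g' hg']
  rcases r1_triv h with ⟨x, hx, h0⟩ | h0
  · rw [mul_right_cancel₀ h0 ((h.idq x hx).symm.trans (hi x hx))]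
  · rw [h0 g hg, h0 g' hg', h0 _ (mul_mem hg hg')]
    ring

theorem r1_cob (h : IsRD v a w e c lam) (hc : CobOn (Dec K w) c) : ∀ g ∈ Dec K w,
    ((lam g : ℚ) : AddCircle (1 : ℚ)) = 0 := fun g hg => by
  obtain ⟨u, hu, -, h2⟩ := inf_inj ine_le_dec ine_conj (h90 (E := E) (Ine K w)) h.infl hc
  obtain ⟨z, hz⟩ := ord_of_fix h.idq (h2 g hg)
  have h0 : e * lam g - ord w (u g : E) = 0 :=
    hom_rat_zero (D := Dec K w) (l := fun x => e * lam x - ord w (u x : E)) (fun x hx y hy => by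
      have t := h.ord_eq x hx y hy
      rw [(congrArg (fun q : Eˣ => ord w (q : E)) (hu x hx y hy)).trans (ord_dd (e := u) hx y)] at t
      push_cast at t
      linarith) hg
  have : lam g = z := mul_left_cancel₀ h.e_pos.ne' (by linarith)
  rw [this, r1_coe_int]

theorem isRD_unit (hw : Over (algebraMap K E) v w) (hc : IsMulCocycle₂ c)
    (hi : Infl (Dec K w) (Ine K w) c) (hu : ∀ g ∈ Dec K w, ∀ g' ∈ Dec K w, w (c (g, g') : E) = 1) :
    Unram v (cls K c) := by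
  obtain ⟨e, he, hq⟩ := hw.idq
  have h : IsRD v (cls K c) w e c 0 := ⟨he, hq, hc, rfl, hi, fun g hg g' hg' => by
    rw [(ord_eq_zero (c (g, g')).ne_zero).2 (hu g hg g' hg')]
    simp⟩
  exact ⟨h.rd, hu⟩

theorem IsRD.mul (h : IsRD v a w e c lam) (h' : IsRD v a' w e' c' lam') :
    IsRD v (a + a') w e (c * c') (lam + lam') := by
  have h' := h'.of_idq h.e_pos h.idq
  refine ⟨h.e_pos, h.idq, coc_mul h.coc h'.coc, by rw [cls_mul h.coc h'.coc, h.cls_eq, h'.cls_eq],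
    h.infl.mul h'.infl, fun g hg g' hg' => ?_⟩
  rw [Pi.mul_apply, Units.val_mul, ord_mul (Units.ne_zero _) (Units.ne_zero _), Int.cast_add,
    h.ord_eq g hg g' hg', h'.ord_eq g hg g' hg']
  simp only [Pi.add_apply]
  ring

theorem IsRD.div (h : IsRD v a w e c lam) (h' : IsRD v a' w e' c' lam') :
    IsRD v (a - a') w e (c / c') (lam - lam') := by
  have h' := h'.of_idq h.e_pos h.idq
  refine ⟨h.e_pos, h.idq, coc_div h.coc h'.coc, by rw [cls_div h.coc h'.coc, h.cls_eq, h'.cls_eq],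
    h.infl.div h'.infl, fun g hg g' hg' => ?_⟩
  rw [Pi.div_apply, Units.val_div_eq_div_val, ord_div (Units.ne_zero _) (Units.ne_zero _),
    Int.cast_sub, h.ord_eq g hg g' hg', h'.ord_eq g hg g' hg']
  simp only [Pi.sub_apply]
  ring

theorem IsRD.cmp (h : IsRD v a w e c lam) (h' : IsRD v a w e' c' lam') : ∀ g ∈ Dec K w,
    ((lam g : ℚ) : AddCircle (1 : ℚ)) = (lam' g : ℚ) := fun g hg => by
  have hd := h.div h'
  have h0 := r1_cob hd ((cobOn_top.2 ((cls_eq_zero (K := K) hd.coc).1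
    (hd.cls_eq.trans (sub_self a)))).mono le_top) g hg
  rwa [Pi.sub_apply, AddCircle.coe_sub, sub_eq_zero] at h0

/-- multiply by the coboundary of `g ↦ π ^ (-lam g)` on `Dec`, `π` a uniformiser of `K` -/
theorem IsRD.unram (h : IsRD v a w e c lam) (hv : Nrm v)
    (h0 : ∀ g ∈ Dec K w, ((lam g : ℚ) : AddCircle (1 : ℚ)) = 0) : Unram v a := by
  obtain ⟨π, hπ, h1⟩ := hv.exists_ord
  let p : Eˣ := Units.mk0 (algebraMap K E π) ((map_ne_zero _).2 hπ)
  let u : (E ≃ₐ[K] E) → Eˣ := fun g => p ^ (-⌊lam g⌋)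
  have hp : ∀ g : E ≃ₐ[K] E, g • p = p := fun g => Units.ext (g.commutes π)
  have hu : ∀ g ∈ Dec K w, (ord w (u g : E) : ℚ) = -(e * lam g) := fun g hg => by
    obtain ⟨z, hz⟩ := (AddCircle.coe_eq_zero_iff _).1 (h0 g hg)
    rw [zsmul_one] at hz
    have t := h.idq π hπ
    rw [h1, Int.cast_one, mul_one] at t
    simp only [u, Units.val_zpow_eq_zpow_val, ord_zpow, ← hz, Int.floor_intCast, p, Units.val_mk0]
    push_cast
    rw [t]
    ring
  rw [← h.cls_eq, ← cls_mul_dd h.coc u]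
  refine isRD_unit (h.idq.isOver h.e_pos) (coc_mul h.coc (dd_coc u))
    (h.infl.mul (r1_infl_dd ine_conj (fun g hg i hi => ?_) fun g _ i _ => ?_)) fun g hg g' hg' => ?_
  · simp only [u, h.lam_ine g hg i hi]
  · simp only [u, smul_zpow', hp]
  · refine (ord_eq_zero (Units.ne_zero _)).1 (Int.cast_eq_zero (α := ℚ).1 ?_)
    rw [Pi.mul_apply, Units.val_mul, ord_mul (Units.ne_zero _) (Units.ne_zero _)]
    erw [ord_dd (e := u) hg g']
    push_cast
    rw [h.ord_eq g hg g' hg', hu g hg, hu g' hg', hu _ (mul_mem hg hg')]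
    ring

theorem hasRes_of_cob (hw : Over (algebraMap K E) v w) (hc : IsMulCocycle₂ c)
    (h : CobOn (Ine K w) c) : HasRes v (cls K c) := by
  obtain ⟨e, he, hq⟩ := hw.idq
  obtain ⟨u, hu⟩ := inf_res ine_le_dec ine_conj (h90 (E := E) (Ine K w)) (.of_coc hc (Dec K w)) h
  have hc' := coc_mul hc (dd_coc u)
  obtain ⟨l, hl⟩ := exists_lam (D := Dec K w) (x := fun p => (ord w ((c * dd u) p : E) : ℚ) / e)
    fun g hg g' _ j _ => by
      have t := congrArg (fun y : Eˣ => ord w (y : E)) (hc' g g' j)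
      simp only [Units.val_mul] at t
      rw [ord_mul (Units.ne_zero _) (Units.ne_zero _), ord_mul (Units.ne_zero _) (Units.ne_zero _),
        show ord w ((g • (c * dd u) (g', j) : Eˣ) : E) = ord w ((c * dd u) (g', j) : E) from
          ord_dec hg _] at t
      rw [← add_div, ← add_div, ← Int.cast_add, ← Int.cast_add, t]
  have hR : IsRD v (cls K c) w e (c * dd u) l := ⟨he, hq, hc', cls_mul_dd hc u, hu,
    fun g hg g' hg' => by rw [← hl g hg g' hg', mul_div_cancel₀ _ he.ne']⟩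
  exact ⟨hR.rd⟩

/-- base change -/
theorem IsRD.up [FiniteDimensional K' E'] [IsGalois K' E'] (h : IsRD v a w e c lam) (φ : K →+* K')
    {v' : Vl K'} {e₀ : ℚ} (he₀ : 0 < e₀) (hi : Idq φ v v' e₀) {j : E →+* E'}
    (hj : ∀ x, j (algebraMap K E x) = algebraMap K' E' (φ x))
    {r : (E' ≃ₐ[K'] E') → E ≃ₐ[K] E} (hr : ∀ g x, j (r g x) = g (j x)) {w' : Vl E'}
    (hw : Over j w w') (hw' : Over (algebraMap K' E') v' w') :
    ∃ e', IsRD v' (rs φ a) w' e' (pull j r c) fun g => e₀ * lam (r g) := by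
  obtain ⟨ε, -, hε⟩ := hw.idq
  obtain ⟨e₁, he₁, hq⟩ := hw'.idq
  obtain ⟨hD, hI⟩ := dec_up (K := K) (K' := K') hr hw
  have hm : ∀ g g', r (g * g') = r g * r g' := lk_mul (j := j) hr
  refine ⟨e₁, he₁, hq, pull_coc (j := j) hr h.coc,
    by rw [← h.cls_eq]; exact (rs_cls φ hj hr h.coc).symm,
    ⟨fun g hg g' hg' i hi i' hi' => ?_, fun g hg g' hg' i hi => ?_⟩, fun g hg g' hg' => ?_⟩
  · simp only [pull, hm, h.infl.eq _ (hD g hg) _ (hD g' hg') _ (hI i hi) _ (hI i' hi')]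
  · exact Units.ext ((hr i _).symm.trans (congrArg (fun q : Eˣ => j (q : E))
      (h.infl.fix _ (hD g hg) _ (hD g' hg') _ (hI i hi))))
  · have t := hε _ (c (r g, r g')).ne_zero
    rw [h.ord_eq _ (hD g hg) _ (hD g' hg')] at t
    refine t.trans ?_
    simp only [hm]
    rcases r1_triv h with ⟨x, hx, h0⟩ | h0
    · have t1 := hε _ ((map_ne_zero (algebraMap K E)).2 hx)
      rw [hj, hq _ ((map_ne_zero φ).2 hx), hi x hx, h.idq x hx, ← mul_assoc, ← mul_assoc] at t1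
      rw [← mul_assoc, ← mul_right_cancel₀ h0 t1]
      ring
    · rw [h0 _ (hD g hg), h0 _ (hD g' hg'), h0 _ (mul_mem (hD g hg) (hD g' hg'))]
      ring

/-- the case `φ = id` -/
theorem IsRD.up_id {E' : Type} [Field E'] [Algebra K E'] [FiniteDimensional K E'] [IsGalois K E']
    (h : IsRD v a w e c lam) {j : E →+* E'} (hj : ∀ x, j (algebraMap K E x) = algebraMap K E' x)
    {r : (E' ≃ₐ[K] E') → E ≃ₐ[K] E} (hr : ∀ g x, j (r g x) = g (j x)) {w' : Vl E'}
    (hw : Over j w w') : ∃ e', IsRD v a w' e' (pull j r c) fun g => lam (r g) := by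
  have hw' : Over (algebraMap K E') v w' := by
    have := (h.idq.isOver h.e_pos).comp hw
    rwa [show j.comp (algebraMap K E) = algebraMap K E' from RingHom.ext hj] at this
  obtain ⟨e', he'⟩ := h.up (RingHom.id K) (v' := v) one_pos (fun x _ => (one_mul _).symm) hj hr hw hw'
  rw [show rs (RingHom.id K) a = a from res_id a] at he'
  exact ⟨e', by simpa only [one_mul] using he'⟩

end Pool.Agent.ZCy.F
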