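import Pool.Agent.Lib.MP_751085_ag.ZF.R1
import Pool.Agent.Lib.MP_751085_ag.ZC.R4

/-! Unramified classes over local fields vanish. -/

namespace Pool.Agent.ZCy.F

open scoped Classical WithZero
open groupCohomology

variable {K E Ω : Type} [Field K] [Field E] [Field Ω] [Algebra K E] [FiniteDimensional K E]
  {v : Vl K} {w : Vl E} {ρ : v.integer →+* Ω} {ρ' : w.integer →+* Ω} {s : ℕ}

variable [IsGalois K E]

theorem cls_eq_zero_of_near (hv : Hens v) (hw : Over (algebraMap K E) v w)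
    {c : (E ≃ₐ[K] E) × (E ≃ₐ[K] E) → Eˣ} (hc : IsMulCocycle₂ c) (h1 : ∀ p, w (c p - 1 : E) < 1)
    {N : ℕ} (hN : v (N : K) = 1) (h : N • cls K c = 0) : cls K c = 0 := by
  obtain ⟨a, b, e, ha, hb⟩ := r4_split hN (Fintype.card (⊤ : Subgroup (E ≃ₐ[K] E)))
    Fintype.card_ne_zero
  have a0 : a ≠ 0 := by rintro rfl; simp at ha
  let e₁ : (E ≃ₐ[K] E) → Eˣ := fun x => ∏ j : (⊤ : Subgroup (E ≃ₐ[K] E)), c (x, j)
  have h2 : (c ^ b) ^ a = dd e₁ := funext fun p => by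
    rw [← pow_mul, mul_comm, ← e]
    exact (coc_iff.1 hc).pow_card trivial trivial
  obtain ⟨E', _, _, _, _, j, hj, hs⟩ := exists_big (E := E) (RingHom.id K)
    (Finset.univ.image fun g => Polynomial.X ^ a - Polynomial.C (e₁ g : E)) fun p hp => by
      obtain ⟨g, -, rfl⟩ := Finset.mem_image.1 hp
      refine Polynomial.separable_X_pow_sub_C _ ?_ (e₁ g).ne_zero
      rw [← map_natCast (algebraMap K E), map_ne_zero]
      exact v.ne_zero_iff.1 (ha ▸ one_ne_zero)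
  obtain ⟨w', hw'⟩ := vn_exists (E := E') v
  have h3 : Over j w w' := hv.uniqF hw (w' := w'.comap j) fun x => by
    rw [Valuation.comap_apply, hj]; exact hw' x
  have h4 {u : Eˣ} (hu : u ∈ r4_U w) : Units.map (j : E →* E') u ∈ r4_U w' := by
    change w' (j u - 1) < 1
    rwa [← map_one j, ← map_sub, h3.lt]
  obtain ⟨r, hr⟩ := exists_pull (G := E ≃ₐ[K] E) (G' := E' ≃ₐ[K] E') hj
  have h5 (g) : ∃ u ∈ r4_U w', u ^ a = Units.map (j : E →* E') (e₁ g) := by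
    obtain ⟨y, h6, h7⟩ := exists_root_near (v := w') a0
      (h4 (prod_mem fun k _ => h1 (g, k) : e₁ g ∈ r4_U w))
      (by simpa [e₁, Polynomial.map_prod] using
        hs _ (Finset.mem_image_of_mem _ (Finset.mem_univ g)))
    exact ⟨Units.mk0 y (by rintro rfl; rw [zero_pow a0] at h6; exact Units.ne_zero _ h6.symm), h7,
      Units.ext h6⟩
  choose u hu hu' using h5
  have h6 : pull j r (c ^ b) = dd fun g => u (r g) := funext fun p => by
    have hd : p.1 ∈ Dec K w' := hv E' w' hw' ▸ trivial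
    refine div_eq_one.1 (Units.ext (mu_eq_one (v := w') (m := a) ?_ ?_ ?_))
    · rw [← map_natCast (algebraMap K E'), hw'.eq_one, ha]
    · rw [← Units.val_pow_eq_pow_val, div_pow, ← Pi.pow_apply (dd _), ← dd_pow, pull, ← map_pow,
        ← Pi.pow_apply, h2, Units.val_eq_one, div_eq_one]
      exact (congrFun (pull_dd hr e₁) p).trans (by simp only [← hu']; rfl)
    · exact (div_mem (h4 (pow_mem (h1 _) b)) (mul_mem (div_mem (r4_smul hd (hu _)) (hu _)) (hu _)) :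
        _ ∈ r4_U w')
  have h7 : b • cls K c = 0 := by
    rw [← cls_pow hc, ← res_id (cls K (c ^ b)), rs_cls _ hj hr (coc_pow hc b), h6]
    exact cls_dd _
  exact AddMonoid.addOrderOf_eq_one_iff.1 (Nat.eq_one_of_dvd_coprimes hb
    (addOrderOf_dvd_of_nsmul_eq_zero h7) (addOrderOf_dvd_of_nsmul_eq_zero h))

theorem _root_.Pool.Agent.ZCy.LocV.eq_zeroF (hv : LocV v ρ s) {a : BR K} {N : ℕ} (hN : v (N : K) = 1) (ha : N • a = 0)
    (h : Unram v a) : a = 0 := by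
  obtain ⟨R, hR⟩ := h
  have hw := R.idq.isOver R.e_pos
  have hd (g) : g ∈ Dec K R.w := hv.hens R.E R.w hw ▸ trivial
  have h1 := hv.red.comp (algebraMap Ω (AlgebraicClosure Ω))
  obtain ⟨ρ', h2, h3⟩ := vn_redext hw h1
  have : Finite ρ.range := Nat.finite_of_card_ne_zero (hv.card ▸ hv.pos.ne')
  have h4 := finite_range hw h1 h3 (Finite.of_surjective (fun z : ρ.range =>
    (⟨algebraMap Ω _ z.1, z.2.imp fun _ h => congrArg (algebraMap Ω _) h⟩ :
      ((algebraMap Ω (AlgebraicClosure Ω)).comp ρ).range))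
    fun ⟨_, x, hx⟩ => ⟨⟨_, x, rfl⟩, Subtype.ext hx⟩)
  obtain ⟨L, hL⟩ := h2.subfield
  have : Finite L := Finite.of_equiv _ (Equiv.subtypeEquivRight fun z => (hL z).symm)
  obtain ⟨act₀, hact⟩ := exists_redAct (K := K) h2 hL
  let act := act₀.comp ((MonoidHom.id _).codRestrict _ hd)
  obtain ⟨Γ, hΓ⟩ := r4_graph h2 L
  have g1 (p) : ∃ z, (R.c p, z) ∈ Γ := by
    have e := hR _ (hd p.1) _ (hd p.2)
    exact ⟨Units.mk0 ⟨ρ' ⟨_, e.le⟩, (hL _).2 ⟨_, rfl⟩⟩
      fun h => ((h2 _).1 (congrArg Subtype.val h)).ne e, (hΓ _ _).2 ⟨_, rfl, rfl⟩⟩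
  have g2 (z) : ∃ u, (u, z) ∈ Γ := by
    obtain ⟨y, hy⟩ := (hL _).1 z.1.2
    exact ⟨Units.mk0 y fun h => z.ne_zero (Subtype.ext (hy.symm.trans
      ((h2 y).2 (by rw [h, map_zero]; exact zero_lt_one)))), (hΓ _ _).2 ⟨y, rfl, hy⟩⟩
  have g3 {u u' z z'} (h : (u, z) ∈ Γ) (h' : (u', z') ∈ Γ) (e : u = u') : z = z' := by
    obtain ⟨y, h5, h6⟩ := (hΓ _ _).1 h
    obtain ⟨y', h7, h8⟩ := (hΓ _ _).1 h'
    obtain rfl : y = y' := Subtype.ext (by rw [h5, h7, e])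
    exact Units.ext (Subtype.ext (h6.symm.trans h8))
  have g4 {u z} (g) (h : (u, z) ∈ Γ) : (g • u, Units.map (act g : L →* L) z) ∈ Γ := by
    obtain ⟨y, h5, h6⟩ := (hΓ _ _).1 h
    exact (hΓ _ _).2 ⟨⟨g y, (hd g y).trans_le y.2⟩, congrArg g h5,
      (hact ⟨g, hd g⟩ y _ _ rfl h6.symm).symm⟩
  have g5 {g g'} (h : act g = act g') : g⁻¹ * g' ∈ Ine K R.w :=
    (mem_ine_iff h2 (hd _)).2 fun x y hy => by
      have e : act (g⁻¹ * g') = 1 := by rw [map_mul, map_inv, h, inv_mul_cancel]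
      rw [← hact ⟨_, hd _⟩ x y ⟨ρ' x, (hL _).2 ⟨x, rfl⟩⟩ hy rfl]
      exact congrArg (fun f : L ≃+* L => (f _ : AlgebraicClosure Ω)) e
  choose c hc using g1
  choose l hl using g2
  obtain ⟨e, he⟩ := cob_of_act act (c := c)
    (fun g h j => g3 (mul_mem (hc _) (hc _)) (mul_mem (g4 g (hc _)) (hc _)) (R.coc g h j))
    fun g h g' h' e e' => g3 (hc _) (hc _) (by
      rw [← R.infl.eq g (hd _) h (hd _) _ (g5 e) _ (g5 e'), mul_inv_cancel_left,
        mul_inv_cancel_left])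
  have hcc := coc_div R.coc (dd_coc fun g => l (e g))
  have h5 : cls K (R.c / dd fun g => l (e g)) = a :=
    (cls_div R.coc (dd_coc _)).trans ((congrArg₂ _ R.cls_eq (cls_dd _)).trans (sub_zero a))
  rw [← h5] at ha ⊢
  refine cls_eq_zero_of_near hv.hens hw hcc (fun p => ?_) hN ha
  obtain ⟨y, h6, h7⟩ := (hΓ _ _).1 (div_mem (hc p)
    (mul_mem (div_mem (g4 p.1 (hl (e p.2))) (hl (e (p.1 * p.2)))) (hl (e p.1))))
  have h8 : ρ' (y - 1) = 0 := by
    rw [map_sub, map_one, h7, sub_eq_zero]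
    change ((c p / _ : Lˣ) : L).1 = 1
    rw [he p.1 p.2]
    exact congrArg (fun z : Lˣ => z.1.1) (div_self' _)
  exact (congrArg (fun x => R.w (x - 1)) h6).symm.trans_lt ((h2 _).1 h8)

theorem _root_.Pool.Agent.ZCy.LocV.unramF (hv : LocV v ρ s) {γ : Ω ≃+* Ω} (hγ : ∀ x, γ x = x ^ s) {a : BR K}
    (h : ResAt v ρ a γ 0) : Unram v a := by
  obtain ⟨R, ρ', d, h1, h2, hd, h3, h4⟩ := h
  have h5 (i : ℕ) : Cmp (⇑(d ^ i)) ρ' ρ' fun x => x ^ s ^ i := by
    induction i with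
    | zero => exact fun x y h => by simp [show y = x from Subtype.ext h]
    | succ i ih =>
      intro x y h
      simp only [pow_succ, pow_mul, ← hγ]
      exact ih.comp h3 (fun x hx => (pow_mem hd i x).trans_le hx) x y (by rw [h, pow_succ']; rfl)
  refine R.isRD.unram hv.nrm fun g hg => ?_
  obtain ⟨i, hi⟩ := exists_frob_pow (R.idq.isOver R.e_pos) h1 h2 hv.card hv.pos hg
  rw [← mul_inv_cancel_left (d ^ i) g, R.isRD.lam_ine _ (pow_mem hd i) _
    (ine_of_cmp h1 (pow_mem hd i) hg (h5 i) hi), R.isRD.lam_pow d hd, ← h4, smul_zero]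

theorem _root_.Pool.Agent.ZCy.LocV.eq_zero_of_frobF (hv : LocV v ρ s) {γ : Ω ≃+* Ω} (hγ : ∀ x, γ x = x ^ s) {a : BR K}
    {N : ℕ} (hN : v (N : K) = 1) (ha : N • a = 0) (h : ResAt v ρ a γ 0) : a = 0 :=
  hv.eq_zeroF hN ha (hv.unramF hγ h)

end Pool.Agent.ZCy.F
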